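import Pool.Agent.Lib_MP_e9ccd1_an.Cut

set_option autoImplicit false

open MeasureTheory Complex Finset Filter Topology SchwartzMap
open scoped FourierTransform RealInnerProductSpace ComplexConjugate ContDiff ENNReal Manifold
open scoped Convolution

namespace Pool.Agent.CurveSpec

variable {ι : Type*} {L B : ℝ} {γ γ' : ℝ → ℂ} {Λ : ι → ℂ}

/-- a test function whose Fourier transform is nonnegative -/
lemma exists_pos_test {r : ℝ} (hr : 0 < r) (l₀ : ℂ) : ∃ Ψ : ℂ → ℂ, TF Ψ ∧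
    (∀ v, Ψ v ≠ 0 → ‖v‖ ≤ r / 2) ∧ (∀ l, ∃ x : ℝ, 0 ≤ x ∧ (𝓕 Ψ) l = (x : ℂ)) ∧ (𝓕 Ψ) l₀ ≠ 0 := by
  let b : ContDiffBump (0 : ℂ) := ⟨r / 8, r / 4, by positivity, by linarith⟩
  set φ : ℂ → ℂ := fun v => ((b v : ℝ) : ℂ) with hφd
  have hφ : TF φ := ⟨Complex.ofRealCLM.contDiff.comp b.contDiff,
    b.hasCompactSupport.comp_left (g := fun x : ℝ => (x : ℂ)) (by simp)⟩
  have hint : Integrable φ := hφ.continuous.integrable_of_hasCompactSupport hφ.supp
  set g : ℂ → ℂ := φ ⋆[ContinuousLinearMap.mul ℂ ℂ, volume] φ with hg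
  have hgc : ContDiff ℝ ∞ g := by
    have := hφ.supp.contDiff_convolution_right (ContinuousLinearMap.mul ℝ ℂ) (n := ⊤)
      hint.locallyIntegrable hφ.smooth (μ := volume)
    exact this
  have hgs : HasCompactSupport g := HasCompactSupport.convolution _ hφ.supp hφ.supp
  have hF : ∀ l, (𝓕 g) l = (𝓕 φ) l * (𝓕 φ) l := fun l =>
    Real.fourier_mul_convolution_eq hint hint l
  have hreal : ∀ l, ∃ x : ℝ, (𝓕 φ) l = (x : ℂ) := by
    intro l
    have h1 : conj ((𝓕 φ) l) = (𝓕 φ) l := by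
      rw [fourier_ex', ← integral_conj]
      rw [← integral_neg_eq_self (fun v => conj (φ v * ex (-⟪l, v⟫)))]
      congr 1
      ext v
      rw [map_mul, conj_ex, inner_neg_right, neg_neg]
      congr 1
      rw [hφd]
      dsimp only
      rw [Complex.conj_ofReal, b.neg]
    exact ⟨_, (Complex.conj_eq_iff_re.1 h1).symm⟩
  have hφ0 : (𝓕 φ) 0 ≠ 0 := by
    rw [fourier_ex']
    simp only [inner_zero_left, neg_zero, ex_zero, mul_one]
    rw [hφd, integral_complex_ofReal]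
    have : 0 < ∫ v, b v := b.integral_pos
    exact_mod_cast this.ne'
  refine ⟨fun v => ex ⟪l₀, v⟫ * g v, ?_, ?_, ?_, ?_⟩
  · refine TF.mul_left ⟨hgc, hgs⟩ ?_
    unfold ex
    have h3 : ContDiff ℝ ∞ (fun v : ℂ => (((2 * Real.pi * ⟪l₀, v⟫ : ℝ) : ℂ) * I)) := by
      apply ContDiff.mul _ contDiff_const
      apply Complex.ofRealCLM.contDiff.comp
      apply ContDiff.mul contDiff_const
      exact contDiff_const.inner ℝ contDiff_id
    exact h3.cexp
  · intro v hv
    have h1 : g v ≠ 0 := right_ne_zero_of_mul hv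
    have h2 := support_convolution_subset (ContinuousLinearMap.mul ℂ ℂ) (μ := volume)
      (f := φ) (g := φ) h1
    obtain ⟨x, hx, y, hy, hxy⟩ := Set.mem_add.1 h2
    have hb : ∀ x, φ x ≠ 0 → ‖x‖ < r / 4 := by
      intro x hx
      have h3 : b x ≠ 0 := by
        intro h4; apply hx; rw [hφd]; dsimp only; rw [h4]; simp
      have h4 : x ∈ Function.support b := h3
      rw [b.support_eq] at h4
      simpa using h4
    rw [← hxy]
    refine (norm_add_le _ _).trans ?_
    have := hb x hx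
    have := hb y hy
    linarith
  · intro l
    have h1 : (𝓕 (fun v => ex ⟪l₀, v⟫ * g v)) l = (𝓕 g) (l - l₀) := by
      rw [fourier_ex', fourier_ex']
      congr 1
      ext v
      have : ex (-⟪l - l₀, v⟫) = ex ⟪l₀, v⟫ * ex (-⟪l, v⟫) := by
        rw [← ex_add, inner_sub_left]; congr 1; ring
      rw [this]; ring
    obtain ⟨x, hx⟩ := hreal (l - l₀)
    refine ⟨x * x, mul_self_nonneg x, ?_⟩
    rw [h1, hF, hx]
    push_cast; ring
  · have h1 : (𝓕 (fun v => ex ⟪l₀, v⟫ * g v)) l₀ = (𝓕 g) 0 := by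
      rw [fourier_ex', fourier_ex']
      congr 1
      ext v
      rw [inner_zero_left, neg_zero, ex_zero, mul_one]
      have : ex ⟪l₀, v⟫ * ex (-⟪l₀, v⟫) = 1 := by rw [← ex_add, add_neg_cancel, ex_zero]
      linear_combination (g v) * this
    rw [h1, hF]
    exact mul_ne_zero hφ0 hφ0

/-- absolute summability of the Fourier transform over the frequencies -/
lemma summable_fourier [Countable ι] (h : Fr L B γ Λ) (hlip : ∀ s t, ‖γ s - γ t‖ ≤ |s - t|)
    {Ψ : ℂ → ℂ} (hΨ : TF Ψ) : Summable (fun i => (𝓕 Ψ) (Λ i)) := by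
  obtain ⟨C₀, hC₀, hdec⟩ := decay (𝓕 (hΨ.supp.toSchwartzMap hΨ.smooth))
  have hdec' : ∀ x, ‖(𝓕 Ψ) x‖ ≤ C₀ * ((1 + ‖x‖) ^ 2)⁻¹ := hdec
  have hLpos := h.Lpos
  have hB := h.Bpos
  set ρ : ℝ := min 1 (8 * L) with hρd
  have hρ : 0 < ρ := lt_min one_pos (by linarith)
  have hρ1 : ρ ≤ 1 := min_le_left _ _
  have hρL : ρ ≤ 8 * L := min_le_right _ _
  have h1 := weight_sum h hlip hρ hρL 0
  have h2 : Summable (fun i => ((1 + ρ * ‖Λ i - 0‖) ^ 2)⁻¹) := by
    have h3 : ∑' i, ENNReal.ofReal (((1 + ρ * ‖Λ i - 0‖) ^ 2)⁻¹) ≠ ⊤ :=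
      (h1.trans_lt ENNReal.ofReal_lt_top).ne
    have h4 := ENNReal.summable_toReal h3
    refine h4.congr fun i => ?_
    rw [ENNReal.toReal_ofReal (by positivity)]
  refine Summable.of_norm_bounded (h2.mul_left C₀) fun i => ?_
  refine (hdec' (Λ i)).trans ?_
  apply mul_le_mul_of_nonneg_left _ hC₀
  apply inv_anti₀ (by positivity)
  rw [sub_zero]
  have h5 : ρ * ‖Λ i‖ ≤ ‖Λ i‖ := by
    have := mul_le_mul_of_nonneg_right hρ1 (norm_nonneg (Λ i))
    simpa using this
  have h6 : 0 ≤ ρ * ‖Λ i‖ := by positivity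
  nlinarith

/-- Main theorem in parametrised form: closed curves in the plane carry no tight frame of
exponentials. -/
theorem no_frame [Countable ι] (h : Fr L B γ Λ) (hc : Crv γ γ') (hcl : γ 0 = γ L)
    (hfin : (selfInt γ L).Finite) : False := by
  obtain ⟨r, hr, hG⟩ := punctured h hc hcl hfin
  have hLpos := h.Lpos
  have hB := h.Bpos
  -- the index set is nonempty
  have hne : Nonempty ι := by
    by_contra hemp
    rw [not_nonempty_iff] at hemp
    have h1 := h.frame (fun _ => 1) (BM.const 1)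
    have h2 : (∑' i : ι, ‖co L γ (Λ i) (fun _ => 1)‖ ^ 2) = 0 := tsum_empty
    rw [h1.tsum_eq] at h2
    simp only [norm_one, one_pow, intervalIntegral.integral_const, smul_eq_mul, mul_one,
      sub_zero] at h2
    have : 0 < B * L := by positivity
    linarith
  obtain ⟨i₀⟩ := hne
  obtain ⟨Ψ, hΨ, hs, hpos, hne⟩ := exists_pos_test hr (Λ i₀)
  have hsum := summable_fourier h hc.lip hΨ
  have hS := ball_zero h hc.lip hG hΨ hs hsum.hasSum
  choose x hx0 hx using hpos
  have h1 : Summable (fun i => x (Λ i)) := by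
    have h2 := hsum.mapL Complex.reCLM
    refine h2.congr fun i => ?_
    rw [hx]; simp
  have h2 : (∑' i, (𝓕 Ψ) (Λ i)) = ((∑' i, x (Λ i) : ℝ) : ℂ) := by
    rw [Complex.ofReal_tsum]
    congr 1
    ext i
    rw [hx]
  rw [hS] at h2
  have h3 : (∑' i, x (Λ i)) = 0 := by exact_mod_cast h2.symm
  have h4 := h1.hasSum
  rw [h3, hasSum_zero_iff_of_nonneg (fun i => hx0 _)] at h4
  apply hne
  rw [hx]
  have := congrFun h4 i₀
  simp only [Pi.zero_apply] at this
  rw [this]; simp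

end Pool.Agent.CurveSpec
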