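import Pool.Agent.Lib_MP_e9ccd1_an.Growth

set_option autoImplicit false

open MeasureTheory Complex Finset Filter Topology SchwartzMap
open scoped FourierTransform RealInnerProductSpace ComplexConjugate ContDiff ENNReal Manifold

namespace Pool.Agent.CurveSpec

variable {ι : Type*} {L B : ℝ} {γ γ' : ℝ → ℂ} {Λ : ι → ℂ}

lemma TF.continuous {Ψ : ℂ → ℂ} (h : TF Ψ) : Continuous Ψ := h.smooth.continuous

lemma TF.mul_left {Ψ g : ℂ → ℂ} (h : TF Ψ) (hg : ContDiff ℝ ∞ g) : TF (fun v => g v * Ψ v) :=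
  ⟨hg.mul h.smooth, h.supp.mul_left⟩

lemma TF.integrable_ex {Ψ : ℂ → ℂ} (h : TF Ψ) (l : ℂ) :
    Integrable (fun v => Ψ v * ex (-⟪l, v⟫)) := by
  apply Continuous.integrable_of_hasCompactSupport
  · have := h.continuous; fun_prop
  · exact h.supp.mul_right

/-- partition of unity argument -/
lemma gd_compact {K : Set ℂ} (hK : IsCompact K) (hG : ∀ v ∈ K, Gd Λ v) {Ψ : ℂ → ℂ} (hΨ : TF Ψ)
    (hs : ∀ v, Ψ v ≠ 0 → v ∈ K) : HasSum (fun i => (𝓕 Ψ) (Λ i)) 0 := by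
  choose! ζ hζ hζ' using hG
  obtain ⟨t, htK, htc⟩ := hK.elim_nhds_subcover (fun v => Metric.ball v (ζ v))
    (fun v hv => Metric.ball_mem_nhds _ (hζ v hv))
  obtain ⟨f, hf⟩ := SmoothPartitionOfUnity.exists_isSubordinate 𝓘(ℝ, ℂ) hK.isClosed
    (fun x : t => Metric.ball (x : ℂ) (ζ x)) (fun _ => Metric.isOpen_ball)
    (by
      intro v hv
      obtain ⟨x, hx, hvx⟩ := Set.mem_iUnion₂.1 (htc hv)
      exact Set.mem_iUnion.2 ⟨⟨x, hx⟩, hvx⟩)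
  have hsm : ∀ x : t, ContDiff ℝ ∞ (fun v => ((f x v : ℝ) : ℂ)) := fun x =>
    Complex.ofRealCLM.contDiff.comp (contMDiff_iff_contDiff.1 (f x).contMDiff)
  have hTF : ∀ x : t, TF (fun v => ((f x v : ℝ) : ℂ) * Ψ v) := fun x => hΨ.mul_left (hsm x)
  have hsum : ∀ v, Ψ v = ∑ x : t, ((f x v : ℝ) : ℂ) * Ψ v := by
    intro v
    by_cases hv : Ψ v = 0
    · simp [hv]
    · rw [← Finset.sum_mul]
      have h1 := f.sum_eq_one (hs v hv)
      rw [finsum_eq_sum_of_fintype] at h1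
      rw [← Complex.ofReal_sum, h1, Complex.ofReal_one, one_mul]
  have hF : ∀ l, (𝓕 Ψ) l = ∑ x : t, (𝓕 (fun v => ((f x v : ℝ) : ℂ) * Ψ v)) l := by
    intro l
    simp only [fourier_ex']
    rw [← integral_finsetSum _ (fun x _ => (hTF x).integrable_ex l)]
    congr 1
    ext v
    rw [← Finset.sum_mul, ← hsum v]
  have h0 : ∀ x : t, HasSum (fun i => (𝓕 (fun v => ((f x v : ℝ) : ℂ) * Ψ v)) (Λ i)) 0 := by
    intro x
    apply hζ' x (htK x x.2) _ (hTF x)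
    intro v hv
    have h1 : f x v ≠ 0 := by
      intro h0; apply hv; rw [h0]; simp
    have h2 : v ∈ tsupport (f x) := subset_tsupport _ h1
    have h3 := hf x h2
    rwa [Metric.mem_ball, dist_eq_norm] at h3
  have h1 := hasSum_sum (s := Finset.univ) (fun (x : t) _ => h0 x)
  rw [Finset.sum_const_zero] at h1
  simpa only [hF] using h1

lemma conv_formula (X P : 𝓢(ℂ, ℂ)) (l : ℂ) :
    ∫ v, X v * P v * ex (-⟪l, v⟫) = ∫ η, (𝓕 P) η * (𝓕 X) (l - η) := by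
  have h1 : ∀ v, X v * P v * ex (-⟪l, v⟫) =
      ∫ η, (𝓕 P) η * (X v * ex (-⟪l - η, v⟫)) := by
    intro v
    rw [← inversion P v]
    have : ∀ η : ℂ, (𝓕 P) η * (X v * ex (-⟪l - η, v⟫)) =
        (𝓕 P) η * ex ⟪η, v⟫ * (X v * ex (-⟪l, v⟫)) := by
      intro η
      have : ex (-⟪l - η, v⟫) = ex ⟪η, v⟫ * ex (-⟪l, v⟫) := by
        rw [← ex_add, inner_sub_left]; congr 1; ring
      rw [this]; ring
    simp only [this]
    rw [integral_mul_const]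
    ring
  simp only [h1]
  rw [integral_integral_swap]
  · congr 1
    ext η
    rw [integral_const_mul, fourier_ex X]
  · have h2 : Integrable (fun z : ℂ × ℂ => X z.1 * (𝓕 P) z.2) (volume.prod volume) :=
      X.integrable.mul_prod (𝓕 P).integrable
    refine h2.mono ?_ ?_
    · have c1 := X.continuous
      have c2 := (𝓕 P).continuous
      exact (by fun_prop : Continuous fun z : ℂ × ℂ =>
        (𝓕 P) z.2 * (X z.1 * ex (-⟪l - z.2, z.1⟫))).aestronglyMeasurable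
    · refine Eventually.of_forall fun z => ?_
      simp only [Function.uncurry]
      rw [norm_mul, norm_mul, norm_mul, norm_ex, mul_one, mul_comm]

lemma conv_bound (X P : 𝓢(ℂ, ℂ)) (l : ℂ) :
    ‖∫ v, X v * P v * ex (-⟪l, v⟫)‖ₑ ≤ ∫⁻ η, ‖(𝓕 P) η‖ₑ * ‖(𝓕 X) (l - η)‖ₑ := by
  rw [conv_formula]
  refine (enorm_integral_le_lintegral_enorm _).trans ?_
  apply lintegral_mono
  intro η
  dsimp only
  rw [enorm_mul]

lemma TF.scale {χ : ℂ → ℂ} (h : TF χ) {ρ : ℝ} (hρ : 0 < ρ) : TF (fun v => χ (ρ⁻¹ • v)) := by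
  refine ⟨h.smooth.comp (contDiff_const_smul _), ?_⟩
  exact h.supp.comp_homeomorph (Homeomorph.smulOfNeZero ρ⁻¹ (inv_ne_zero hρ.ne'))

lemma fourier_scale (χ : ℂ → ℂ) {ρ : ℝ} (hρ : 0 < ρ) (l : ℂ) :
    (𝓕 (fun v => χ (ρ⁻¹ • v))) l = ((ρ ^ 2 : ℝ) : ℂ) * (𝓕 χ) (ρ • l) := by
  rw [fourier_ex', fourier_ex']
  have h1 := Measure.integral_comp_smul (volume : Measure ℂ)
    (fun v => χ v * ex (-⟪ρ • l, v⟫)) ρ⁻¹
  have h2 : ∀ v : ℂ, ⟪ρ • l, ρ⁻¹ • v⟫ = ⟪l, v⟫ := by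
    intro v
    rw [real_inner_smul_left, real_inner_smul_right, ← mul_assoc, mul_inv_cancel₀ hρ.ne', one_mul]
  simp only [h2] at h1
  rw [h1, Complex.finrank_real_complex]
  have h3 : |((ρ⁻¹ : ℝ) ^ 2)⁻¹| = ρ ^ 2 := by
    rw [inv_pow, inv_inv, abs_of_pos (by positivity)]
  rw [h3, Complex.real_smul]

lemma decay (χ : 𝓢(ℂ, ℂ)) : ∃ C : ℝ, 0 ≤ C ∧ ∀ x, ‖χ x‖ ≤ C * ((1 + ‖x‖) ^ 2)⁻¹ := by
  refine ⟨2 ^ 2 * (Finset.Iic ((2, 0) : ℕ × ℕ)).sup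
    (fun m => SchwartzMap.seminorm ℝ m.1 m.2) χ, by positivity, fun x => ?_⟩
  have h1 := SchwartzMap.one_add_le_sup_seminorm_apply (𝕜 := ℝ) (m := ((2, 0) : ℕ × ℕ))
    (k := 2) (n := 0) le_rfl le_rfl χ x
  rw [norm_iteratedFDeriv_zero] at h1
  rw [← div_eq_mul_inv, le_div_iff₀ (by positivity), mul_comm]
  exact h1

/-- the key estimate for the cut-off sums -/
lemma cut_sum [Countable ι] (h : Fr L B γ Λ) (hlip : ∀ s t, ‖γ s - γ t‖ ≤ |s - t|)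
    {χ Ψ : ℂ → ℂ} (hχ : TF χ) (hΨ : TF Ψ) :
    ∃ C : ℝ, ∀ ρ : ℝ, 0 < ρ → ρ ≤ 8 * L →
      ∑' i, ‖(𝓕 (fun v => χ (ρ⁻¹ • v) * Ψ v)) (Λ i)‖ₑ ≤ ENNReal.ofReal (C * ρ) := by
  set P : 𝓢(ℂ, ℂ) := hΨ.supp.toSchwartzMap hΨ.smooth with hP
  have hPv : ∀ v, P v = Ψ v := fun v => rfl
  obtain ⟨C₀, hC₀, hdec⟩ := decay (𝓕 (hχ.supp.toSchwartzMap hχ.smooth))
  have hdec' : ∀ x, ‖(𝓕 χ) x‖ ≤ C₀ * ((1 + ‖x‖) ^ 2)⁻¹ := hdec
  have hfin : ∫⁻ η, ‖(𝓕 P) η‖ₑ ≠ ⊤ := (𝓕 P).integrable.2.ne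
  set N := (∫⁻ η, ‖(𝓕 P) η‖ₑ).toReal with hN
  refine ⟨256 * B * C₀ * N, fun ρ hρ hρL => ?_⟩
  have hB := h.Bpos
  set X : 𝓢(ℂ, ℂ) := (hχ.scale hρ).supp.toSchwartzMap (hχ.scale hρ).smooth with hX
  have hXv : ∀ v, X v = χ (ρ⁻¹ • v) := fun v => rfl
  have hXF : ∀ l, (𝓕 X) l = ((ρ ^ 2 : ℝ) : ℂ) * (𝓕 χ) (ρ • l) := by
    intro l
    rw [← fourier_scale χ hρ l]
    rfl
  have h1 : ∀ i, ‖(𝓕 (fun v => χ (ρ⁻¹ • v) * Ψ v)) (Λ i)‖ₑ ≤
      ∫⁻ η, ‖(𝓕 P) η‖ₑ * ‖(𝓕 X) (Λ i - η)‖ₑ := by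
    intro i
    rw [fourier_ex']
    exact conv_bound X P (Λ i)
  refine (ENNReal.tsum_le_tsum h1).trans ?_
  have hmeasX : Measurable fun l => (𝓕 X) l := (𝓕 X).continuous.measurable
  have hmeasP : Measurable fun l => (𝓕 P) l := (𝓕 P).continuous.measurable
  have hmm : ∀ i, AEMeasurable (fun η : ℂ => ‖(𝓕 P) η‖ₑ * ‖(𝓕 X) (Λ i - η)‖ₑ) volume := by
    intro i
    have m1 : Measurable fun η : ℂ => (𝓕 X) (Λ i - η) :=
      hmeasX.comp (measurable_const.sub measurable_id)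
    exact (hmeasP.enorm.mul m1.enorm).aemeasurable
  rw [← lintegral_tsum hmm]
  have h2 : ∀ η : ℂ, ∑' i, ‖(𝓕 P) η‖ₑ * ‖(𝓕 X) (Λ i - η)‖ₑ ≤
      ‖(𝓕 P) η‖ₑ * ENNReal.ofReal (256 * B * C₀ * ρ) := by
    intro η
    rw [ENNReal.tsum_mul_left]
    apply mul_le_mul_right
    have h3 : ∀ i, ‖(𝓕 X) (Λ i - η)‖ₑ ≤ ENNReal.ofReal (ρ ^ 2 * C₀) *
        ENNReal.ofReal (((1 + ρ * ‖Λ i - η‖) ^ 2)⁻¹) := by
      intro i
      rw [← ENNReal.ofReal_mul (by positivity), ← ofReal_norm]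
      apply ENNReal.ofReal_le_ofReal
      rw [hXF, norm_mul, Complex.norm_real, Real.norm_of_nonneg (by positivity)]
      have h4 := hdec' (ρ • (Λ i - η))
      rw [norm_smul, Real.norm_of_nonneg hρ.le] at h4
      rw [mul_assoc]
      exact mul_le_mul_of_nonneg_left h4 (by positivity)
    refine (ENNReal.tsum_le_tsum h3).trans ?_
    rw [ENNReal.tsum_mul_left]
    refine (mul_le_mul_right (weight_sum h hlip hρ hρL η) _).trans ?_
    rw [← ENNReal.ofReal_mul (by positivity)]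
    apply ENNReal.ofReal_le_ofReal
    apply le_of_eq
    field_simp
  refine (lintegral_mono h2).trans ?_
  rw [lintegral_mul_const _ hmeasP.enorm, ← ENNReal.ofReal_toReal hfin, ← hN,
    ← ENNReal.ofReal_mul ENNReal.toReal_nonneg]
  apply ENNReal.ofReal_le_ofReal
  apply le_of_eq
  ring

/-- the Fourier transform of the frequency measure vanishes near the origin -/
theorem ball_zero [Countable ι] (h : Fr L B γ Λ) (hlip : ∀ s t, ‖γ s - γ t‖ ≤ |s - t|)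
    {r : ℝ} (hG : ∀ v : ℂ, v ≠ 0 → ‖v‖ < r → Gd Λ v)
    {Ψ : ℂ → ℂ} (hΨ : TF Ψ) (hs : ∀ v, Ψ v ≠ 0 → ‖v‖ ≤ r / 2) {S : ℂ}
    (hS : HasSum (fun i => (𝓕 Ψ) (Λ i)) S) : S = 0 := by
  -- cut-off function
  let b : ContDiffBump (0 : ℂ) := ⟨1, 2, one_pos, by norm_num⟩
  set χ : ℂ → ℂ := fun v => ((b v : ℝ) : ℂ) with hχd
  have hχ : TF χ := ⟨Complex.ofRealCLM.contDiff.comp b.contDiff,
    b.hasCompactSupport.comp_left (g := fun x : ℝ => (x : ℂ)) (by simp)⟩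
  have hχ1 : ∀ v, ‖v‖ ≤ 1 → χ v = 1 := by
    intro v hv
    rw [hχd]
    dsimp only
    rw [b.one_of_mem_closedBall (by simpa using hv)]
    simp
  obtain ⟨C, hC⟩ := cut_sum h hlip hχ hΨ
  have key : ∀ ρ : ℝ, 0 < ρ → ρ ≤ 8 * L → ‖S‖ₑ ≤ ENNReal.ofReal (C * ρ) := by
    intro ρ hρ hρL
    have hK : IsCompact (Metric.closedBall (0:ℂ) (r / 2) \ Metric.ball 0 ρ) :=
      (isCompact_closedBall _ _).diff Metric.isOpen_ball
    have h1 : HasSum (fun i => (𝓕 (fun v => (1 - χ (ρ⁻¹ • v)) * Ψ v)) (Λ i)) 0 := by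
      refine gd_compact hK ?_ (hΨ.mul_left (contDiff_const.sub (hχ.scale hρ).smooth)) ?_
      · intro v hv
        have h2 : ‖v‖ ≤ r / 2 := by simpa using hv.1
        have h3 : ρ ≤ ‖v‖ := by simpa using hv.2
        exact hG v (norm_pos_iff.1 (hρ.trans_le h3)) (by linarith)
      · intro v hv
        have h2 : Ψ v ≠ 0 := right_ne_zero_of_mul hv
        have h3 : 1 - χ (ρ⁻¹ • v) ≠ 0 := left_ne_zero_of_mul hv
        refine ⟨by simpa using hs v h2, ?_⟩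
        intro h4
        apply h3
        rw [hχ1, sub_self]
        have h5 : ‖v‖ < ρ := by simpa using h4
        rw [norm_smul, norm_inv, Real.norm_of_nonneg hρ.le]
        rw [inv_mul_le_iff₀ hρ]
        linarith
    have hsum : ∀ l, (𝓕 Ψ) l = (𝓕 (fun v => (1 - χ (ρ⁻¹ • v)) * Ψ v)) l +
        (𝓕 (fun v => χ (ρ⁻¹ • v) * Ψ v)) l := by
      intro l
      simp only [fourier_ex']
      rw [← integral_add]
      · congr 1
        ext v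
        ring
      · exact (hΨ.mul_left (contDiff_const.sub (hχ.scale hρ).smooth)).integrable_ex l
      · exact (hΨ.mul_left (hχ.scale hρ).smooth).integrable_ex l
    have h2 : HasSum (fun i => (𝓕 (fun v => χ (ρ⁻¹ • v) * Ψ v)) (Λ i)) S := by
      have h3 := hS.sub h1
      simp only [hsum, add_sub_cancel_left, sub_zero] at h3
      exact h3
    rw [← h2.tsum_eq]
    exact (enorm_tsum_le_tsum_enorm).trans (hC ρ hρ hρL)
  -- let rho tend to zero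
  have hlim : Tendsto (fun ρ : ℝ => ENNReal.ofReal (C * ρ)) (𝓝[>] 0) (𝓝 0) := by
    have h1 : Tendsto (fun ρ : ℝ => C * ρ) (𝓝[>] 0) (𝓝 (C * 0)) :=
      (tendsto_const_nhds.mul tendsto_id).mono_left nhdsWithin_le_nhds
    rw [mul_zero] at h1
    have h2 := ENNReal.tendsto_ofReal h1
    rwa [ENNReal.ofReal_zero] at h2
  have h8 : 0 < 8 * L := by have := h.Lpos; linarith
  have hle : ‖S‖ₑ ≤ 0 := by
    refine ge_of_tendsto hlim ?_
    filter_upwards [Ioc_mem_nhdsGT h8] with ρ hρ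
    exact key ρ hρ.1 hρ.2
  simpa using hle

end Pool.Agent.CurveSpec
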