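import Mathlib

set_option autoImplicit false

open MeasureTheory
open scoped ENNReal

namespace Pool.Agent.CurveSpec

/-- A piecewise `C^1` closed curve `γ : [0, L] → E` parametrised by arc length: continuous,
closed, `C^1` with unit speed on each of finitely many closed subintervals covering `[0, L]`, and
with only finitely many parameters of self-intersection. -/
structure ClosedCurve {E : Type*} [NormedAddCommGroup E] [NormedSpace ℝ E] (L : ℝ)
    (γ : ℝ → E) : Prop where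
  pos : 0 < L
  cont : ContinuousOn γ (Set.Icc 0 L)
  closed : γ 0 = γ L
  pieces : ∃ (n : ℕ) (τ : ℕ → ℝ), τ 0 = 0 ∧ τ n = L ∧ ∀ k < n, τ k < τ (k + 1) ∧
    ContDiffOn ℝ 1 γ (Set.Icc (τ k) (τ (k + 1))) ∧
    ∀ t ∈ Set.Icc (τ k) (τ (k + 1)), ‖derivWithin γ (Set.Icc (τ k) (τ (k + 1))) t‖ = 1
  selfint : {t | t ∈ Set.Ico 0 L ∧ ∃ s ∈ Set.Ico 0 L, s ≠ t ∧ γ t = γ s}.Finite

/-- The normalised arc-length measure of a curve parametrised by arc length on `[0, L]`. -/
noncomputable def arcMeasure {E : Type*} [MeasurableSpace E] (L : ℝ) (γ : ℝ → E) : Measure E :=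
  (ENNReal.ofReal L)⁻¹ • Measure.map γ (volume.restrict (Set.Icc 0 L))

/-- The exponential `x ↦ e^{2 π i λ · x}`. -/
noncomputable def expo {E : Type*} [NormedAddCommGroup E] [InnerProductSpace ℝ E] (l x : E) : ℂ :=
  Complex.exp (2 * Real.pi * Complex.I * ((inner ℝ l x : ℝ) : ℂ))

/-- A measure is tight-frame spectral. -/
def TightFrameSpectral {E : Type*} [NormedAddCommGroup E] [InnerProductSpace ℝ E]
    [MeasurableSpace E] (μ : Measure E) : Prop :=
  ∃ Λ : Set E, Λ.Countable ∧ ∃ A : ℝ, 0 < A ∧ ∀ f : E → ℂ, MemLp f 2 μ →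
    HasSum (fun l : Λ => ‖∫ x, f x * expo (-(l : E)) x ∂μ‖ ^ 2) (A * ∫ x, ‖f x‖ ^ 2 ∂μ)

/-- A measure is spectral: some countable family of exponentials is an orthonormal basis of its
`L^2` space. -/
def Spectral {E : Type*} [NormedAddCommGroup E] [InnerProductSpace ℝ E]
    [MeasurableSpace E] (μ : Measure E) : Prop :=
  ∃ Λ : Set E, Λ.Countable ∧ ∃ b : HilbertBasis Λ ℂ (Lp ℂ 2 μ),
    ∀ l : Λ, ∀ᵐ x ∂μ, (b l : E → ℂ) x = expo (l : E) x

end Pool.Agent.CurveSpec
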