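import Pool.Agent.Lib_MP_e9ccd1_an.Good

set_option autoImplicit false

open MeasureTheory Complex Finset Filter Topology SchwartzMap
open scoped FourierTransform RealInnerProductSpace ComplexConjugate ContDiff

namespace Pool.Agent.CurveSpec

variable {ι : Type*} {L B : ℝ} {γ γ' : ℝ → ℂ} {Λ : ι → ℂ}

lemma last_below {w : ℝ → ℝ} (hw : Continuous w) {p m c : ℝ} (hpm : p < m) (hp : w p ≤ c)
    (hm : c < w m) : ∃ a, p ≤ a ∧ a < m ∧ w a = c ∧ ∀ t, a < t → t ≤ m → c < w t := by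
  have hK : IsCompact (Set.Icc p m ∩ {t | w t ≤ c}) :=
    isCompact_Icc.inter_right (isClosed_le hw continuous_const)
  obtain ⟨a, ⟨⟨ha1, ha2⟩, ha3⟩, hgr⟩ := hK.exists_isGreatest ⟨p, ⟨le_rfl, hpm.le⟩, hp⟩
  have ha4 : w a ≤ c := ha3
  have ham : a < m := lt_of_le_of_ne ha2 (fun h => by rw [h] at ha4; linarith)
  have hab : ∀ t, a < t → t ≤ m → c < w t := by
    intro t h1 h2
    by_contra h3
    push Not at h3
    have := hgr ⟨⟨ha1.trans h1.le, h2⟩, h3⟩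
    linarith
  refine ⟨a, ha1, ham, ?_, hab⟩
  apply le_antisymm ha4
  have h1 : Tendsto w (𝓝[>] a) (𝓝 (w a)) := (hw.tendsto a).mono_left nhdsWithin_le_nhds
  refine ge_of_tendsto h1 ?_
  filter_upwards [Ioo_mem_nhdsGT ham] with t ht
  exact (hab t ht.1 ht.2.le).le

lemma first_below {w : ℝ → ℝ} (hw : Continuous w) {m q c : ℝ} (hmq : m < q) (hq : w q ≤ c)
    (hm : c < w m) : ∃ b, m < b ∧ b ≤ q ∧ w b = c ∧ ∀ t, m ≤ t → t < b → c < w t := by
  obtain ⟨a, h1, h2, h3, h4⟩ := last_below (w := fun t => w (-t)) (hw.comp continuous_neg)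
    (p := -q) (m := -m) (c := c) (by linarith) (by simpa using hq) (by simpa using hm)
  refine ⟨-a, by linarith, by linarith, h3, fun t ht1 ht2 => ?_⟩
  have := h4 (-t) (by linarith) (by linarith)
  simpa using this

/-- height of the curve in direction orthogonal to `u` -/
noncomputable def hgt (γ : ℝ → ℂ) (u : ℂ) (t : ℝ) : ℝ := (conj u * γ t).im

/-- coordinate along `u` -/
noncomputable def alo (γ : ℝ → ℂ) (u : ℂ) (t : ℝ) : ℝ := (conj u * γ t).re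

/-- an excursion of the curve above a chord parallel to `u` -/
structure Exc (γ : ℝ → ℂ) (L : ℝ) (u : ℂ) (a b : ℝ) : Prop where
  nn : 0 ≤ a
  lt : a < b
  le : b ≤ L
  feet : hgt γ u a = hgt γ u b
  above : ∀ t, a < t → t < b → hgt γ u a < hgt γ u t
  ne : alo γ u a ≠ alo γ u b

lemma hgt_cont (hγ : Continuous γ) (u : ℂ) : Continuous (hgt γ u) := by
  unfold hgt; fun_prop

lemma alo_cont (hγ : Continuous γ) (u : ℂ) : Continuous (alo γ u) := by
  unfold alo; fun_prop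

/-- The unit vector as an isometry. -/
lemma exists_rot {u : ℂ} (hu : ‖u‖ = 1) : ∃ A : ℂ ≃ₗᵢ[ℝ] ℂ, (∀ z, A z = conj u * z) ∧
    ∀ z, A.symm z = u * z := by
  have hc : ‖conj u‖ = 1 := by rw [Complex.norm_conj, hu]
  set c : Circle := ⟨conj u, mem_sphere_zero_iff_norm.2 hc⟩ with hcdef
  refine ⟨rotation c, fun z => by rw [rotation_apply], fun z => ?_⟩
  rw [LinearIsometryEquiv.symm_apply_eq, rotation_apply]
  change z = conj u * (u * z)
  rw [← mul_assoc, mul_comm (conj u) u, Complex.mul_conj, Complex.normSq_eq_norm_sq, hu]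
  simp

lemma Exc.gd [Countable ι] {u : ℂ} {a b : ℝ} (he : Exc γ L u a b) (h : Fr L B γ Λ)
    (hc : Crv γ γ') (hu : ‖u‖ = 1) {x₀ : ℝ} (hx : 0 < x₀)
    (hx2 : x₀ < |alo γ u b - alo γ u a|) : Gd Λ (x₀ * u) := by
  obtain ⟨A, hA, hAs⟩ := exists_rot hu
  rcases lt_or_gt_of_ne he.ne with hlt | hgt'
  · rw [abs_of_pos (by linarith)] at hx2
    have := good_of_excursion h hc A he.nn he.lt he.le (by rw [hA, hA]; exact he.feet)
      (fun t ht => by rw [hA, hA]; exact he.above t ht.1 ht.2) hx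
      (by rw [hA, hA]; exact hx2)
    rw [hAs, mul_comm] at this
    exact this.gd
  · rw [abs_of_neg (by linarith)] at hx2
    set R : ℂ ≃ₗᵢ[ℝ] ℂ := (A.trans Complex.conjLIE).trans (LinearIsometryEquiv.neg ℝ) with hR
    have hRa : ∀ z, R z = -conj (A z) := fun z => rfl
    have hre : ∀ t, (R (γ t)).re = -alo γ u t := by
      intro t; rw [hRa, hA]; unfold alo; rw [Complex.neg_re, Complex.conj_re]
    have him : ∀ t, (R (γ t)).im = hgt γ u t := by
      intro t; rw [hRa, hA]; unfold hgt; rw [Complex.neg_im, Complex.conj_im, neg_neg]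
    have := good_of_excursion h hc R he.nn he.lt he.le (by rw [him, him]; exact he.feet)
      (fun t ht => by rw [him, him]; exact he.above t ht.1 ht.2) hx
      (by rw [hre, hre]; linarith)
    have h2 : R.symm x₀ = -(x₀ * u) := by
      rw [LinearIsometryEquiv.symm_apply_eq, hRa, hA]
      rw [map_mul, Complex.conj_conj, map_neg, map_mul, Complex.conj_ofReal]
      have h3 : u * conj u = 1 := by
        rw [Complex.mul_conj, Complex.normSq_eq_norm_sq, hu]; simp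
      linear_combination (-(x₀ : ℂ)) * h3
    rw [h2] at this
    have h4 := this.gd.neg
    rwa [neg_neg] at h4

lemma hgt_sub_le {M : ℝ} (hM : ∀ t, 0 ≤ t → t ≤ L → ‖γ t‖ ≤ M) (u u₀ : ℂ) {t : ℝ} (h0 : 0 ≤ t)
    (hL : t ≤ L) : |hgt γ u t - hgt γ u₀ t| ≤ ‖u - u₀‖ * M := by
  unfold hgt
  rw [← Complex.sub_im, ← sub_mul, ← map_sub]
  refine (Complex.abs_im_le_norm _).trans ?_
  rw [norm_mul, Complex.norm_conj]
  exact mul_le_mul_of_nonneg_left (hM t h0 hL) (norm_nonneg _)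

lemma alo_sub_le {M : ℝ} (hM : ∀ t, 0 ≤ t → t ≤ L → ‖γ t‖ ≤ M) (u u₀ : ℂ) {t : ℝ} (h0 : 0 ≤ t)
    (hL : t ≤ L) : |alo γ u t - alo γ u₀ t| ≤ ‖u - u₀‖ * M := by
  unfold alo
  rw [← Complex.sub_re, ← sub_mul, ← map_sub]
  refine (Complex.abs_re_le_norm _).trans ?_
  rw [norm_mul, Complex.norm_conj]
  exact mul_le_mul_of_nonneg_left (hM t h0 hL) (norm_nonneg _)

lemma Exc.persist (hγ : Continuous γ) {u₀ : ℂ} {a b : ℝ}
    (he : Exc γ L u₀ a b) : ∃ η : ℝ, 0 < η ∧ ∃ ρ : ℝ, 0 < ρ ∧ ∀ u, ‖u - u₀‖ < η →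
      ∃ a' b', Exc γ L u a' b' ∧ ρ ≤ |alo γ u b' - alo γ u a'| := by
  obtain ⟨M, hM⟩ : ∃ M, ∀ t, 0 ≤ t → t ≤ L → ‖γ t‖ ≤ M := by
    obtain ⟨M, hM⟩ := (isCompact_Icc (a := (0:ℝ)) (b := L)).exists_bound_of_continuousOn
      hγ.continuousOn
    exact ⟨M, fun t h0 h1 => hM t ⟨h0, h1⟩⟩
  have hMn : 0 ≤ M := (norm_nonneg _).trans (hM a he.nn (he.lt.le.trans he.le))
  set c := hgt γ u₀ a with hcdef
  set D := |alo γ u₀ b - alo γ u₀ a| with hD
  have hDpos : 0 < D := abs_pos.2 (sub_ne_zero.2 he.ne.symm)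
  have hac := alo_cont hγ u₀
  have hhc := hgt_cont hγ u₀
  -- choose kappa
  obtain ⟨κ₁, hκ₁, hκ₁'⟩ := Metric.continuousAt_iff.1 (hac.continuousAt (x := a)) (D / 8)
    (by positivity)
  obtain ⟨κ₂, hκ₂, hκ₂'⟩ := Metric.continuousAt_iff.1 (hac.continuousAt (x := b)) (D / 8)
    (by positivity)
  have hab := he.lt
  set κ := min (min (κ₁ / 2) (κ₂ / 2)) ((b - a) / 4) with hκ
  have hκpos : 0 < κ := by
    rw [hκ]; apply lt_min (lt_min (by linarith) (by linarith)) (by linarith)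
  have hκa : κ < κ₁ := by
    have : κ ≤ κ₁ / 2 := (min_le_left _ _).trans (min_le_left _ _)
    linarith
  have hκb : κ < κ₂ := by
    have : κ ≤ κ₂ / 2 := (min_le_left _ _).trans (min_le_right _ _)
    linarith
  have hκc : κ ≤ (b - a) / 4 := min_le_right _ _
  -- minimum on the middle part
  obtain ⟨δ, hδ, hmid⟩ : ∃ δ : ℝ, 0 < δ ∧ ∀ t, a + κ ≤ t → t ≤ b - κ → c + 2 * δ ≤ hgt γ u₀ t := by
    obtain ⟨m, hm, hmin⟩ := (isCompact_Icc (a := a + κ) (b := b - κ)).exists_isMinOn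
      ⟨a + κ, ⟨le_rfl, by linarith⟩⟩ hhc.continuousOn
    refine ⟨(hgt γ u₀ m - c) / 2, ?_, fun t h1 h2 => ?_⟩
    · have := he.above m (by linarith [hm.1]) (by linarith [hm.2])
      linarith
    · have := hmin ⟨h1, h2⟩
      simp only [Set.mem_ofPred_eq] at this
      linarith
  refine ⟨min (δ / 2) (D / 8) / (M + 1), by positivity, D / 4, by positivity, fun u hu => ?_⟩
  have hu1 : ‖u - u₀‖ * M ≤ min (δ / 2) (D / 8) := by
    have h1 : ‖u - u₀‖ * (M + 1) < min (δ / 2) (D / 8) := by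
      rwa [lt_div_iff₀ (by linarith)] at hu
    nlinarith [norm_nonneg (u - u₀)]
  have hu2 : ‖u - u₀‖ * M ≤ δ / 2 := hu1.trans (min_le_left _ _)
  have hu3 : ‖u - u₀‖ * M ≤ D / 8 := hu1.trans (min_le_right _ _)
  have hw := hgt_cont hγ u
  have hH : ∀ t, a ≤ t → t ≤ b → |hgt γ u t - hgt γ u₀ t| ≤ δ / 2 := fun t h1 h2 =>
    (hgt_sub_le hM u u₀ (he.nn.trans h1) (h2.trans he.le)).trans hu2
  have hX : ∀ t, a ≤ t → t ≤ b → |alo γ u t - alo γ u₀ t| ≤ D / 8 := fun t h1 h2 =>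
    (alo_sub_le hM u u₀ (he.nn.trans h1) (h2.trans he.le)).trans hu3
  have hmid' : ∀ t, a + κ ≤ t → t ≤ b - κ → c + δ < hgt γ u t := by
    intro t h1 h2
    have h3 := hmid t h1 h2
    have h4 := abs_le.1 (hH t (by linarith) (by linarith))
    linarith [h4.1]
  obtain ⟨a', ha1, ha2, ha3, ha4⟩ := last_below hw (p := a) (m := a + κ) (c := c + δ)
    (by linarith) (by have := abs_le.1 (hH a le_rfl hab.le); linarith [this.2])
    (hmid' _ le_rfl (by linarith))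
  obtain ⟨b', hb1, hb2, hb3, hb4⟩ := first_below hw (m := b - κ) (q := b) (c := c + δ)
    (by linarith) (by have := abs_le.1 (hH b hab.le le_rfl); have := he.feet; linarith [this])
    (hmid' _ (by linarith) le_rfl)
  have hfar : D / 4 ≤ |alo γ u b' - alo γ u a'| := by
    have e1 := hX a' ha1 (by linarith)
    have e2 := hX b' (by linarith) hb2
    have e3 : |alo γ u₀ a' - alo γ u₀ a| < D / 8 := by
      have := hκ₁' (x := a') (by rw [Real.dist_eq, abs_of_nonneg (by linarith)]; linarith)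
      rwa [Real.dist_eq] at this
    have e4 : |alo γ u₀ b' - alo γ u₀ b| < D / 8 := by
      have := hκ₂' (x := b') (by rw [Real.dist_eq, abs_of_nonpos (by linarith)]; linarith)
      rwa [Real.dist_eq] at this
    have e5 : D ≤ |alo γ u b' - alo γ u a'| + D / 8 + D / 8 + D / 8 + D / 8 := by
      rw [hD]
      have e6 : alo γ u₀ b - alo γ u₀ a = (alo γ u b' - alo γ u a') +
          (alo γ u a' - alo γ u₀ a') - (alo γ u b' - alo γ u₀ b') +
          (alo γ u₀ a' - alo γ u₀ a) - (alo γ u₀ b' - alo γ u₀ b) := by ring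
      rw [e6] at hD ⊢
      have t1 := abs_sub ((alo γ u b' - alo γ u a') +
          (alo γ u a' - alo γ u₀ a') - (alo γ u b' - alo γ u₀ b') +
          (alo γ u₀ a' - alo γ u₀ a)) (alo γ u₀ b' - alo γ u₀ b)
      have t2 := abs_add_le ((alo γ u b' - alo γ u a') +
          (alo γ u a' - alo γ u₀ a') - (alo γ u b' - alo γ u₀ b'))
          (alo γ u₀ a' - alo γ u₀ a)
      have t3 := abs_sub ((alo γ u b' - alo γ u a') +
          (alo γ u a' - alo γ u₀ a')) (alo γ u b' - alo γ u₀ b')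
      have t4 := abs_add_le (alo γ u b' - alo γ u a') (alo γ u a' - alo γ u₀ a')
      linarith
    linarith
  refine ⟨a', b', ⟨he.nn.trans ha1, by linarith, hb2.trans he.le, by rw [ha3, hb3], ?_, ?_⟩, hfar⟩
  · intro t h1 h2
    rw [ha3]
    rcases le_or_gt t (a + κ) with h3 | h3
    · exact ha4 t h1 h3
    · rcases le_or_gt t (b - κ) with h4 | h4
      · exact hmid' t h3.le h4
      · exact hb4 t h4.le h2
  · intro h
    rw [h, sub_self, abs_zero] at hfar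
    linarith

/-- the self-intersection parameters -/
def selfInt (γ : ℝ → ℂ) (L : ℝ) : Set ℝ :=
  {t | t ∈ Set.Ico 0 L ∧ ∃ s ∈ Set.Ico 0 L, s ≠ t ∧ γ t = γ s}

lemma eq_of_hgt_alo {u : ℂ} (hu : u ≠ 0) {s t : ℝ} (h1 : hgt γ u s = hgt γ u t)
    (h2 : alo γ u s = alo γ u t) : γ s = γ t := by
  have h3 : conj u * γ s = conj u * γ t := Complex.ext h2 h1
  exact mul_left_cancel₀ (by simpa using hu) h3

lemma two_pre {f : ℝ → ℝ} (hf : Continuous f) {m L : ℝ} (h0 : 0 < m) (h1 : m < L)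
    (hcl : f 0 = f L) {y : ℝ} (hy1 : f 0 < y) (hy2 : y < f m) :
    ∃ s t, 0 < s ∧ s < m ∧ m < t ∧ t < L ∧ f s = y ∧ f t = y := by
  obtain ⟨s, hs, hs'⟩ := intermediate_value_Ioo h0.le hf.continuousOn ⟨hy1, hy2⟩
  obtain ⟨t, ht, ht'⟩ := intermediate_value_Ioo' h1.le hf.continuousOn
    (⟨by rw [← hcl]; exact hy1, hy2⟩ : y ∈ Set.Ioo (f L) (f m))
  exact ⟨s, t, hs.1, hs.2, ht.1, ht.2, hs', ht'⟩

lemma hgt_nonconst (hγ : Continuous γ) (hL : 0 < L) (hcl : γ 0 = γ L)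
    (hfin : (selfInt γ L).Finite) {u : ℂ} (hu : u ≠ 0) :
    ∃ m, 0 < m ∧ m < L ∧ hgt γ u m ≠ hgt γ u 0 := by
  by_contra hcon
  push Not at hcon
  obtain ⟨m, hm, hmP⟩ := (Set.Ioo_infinite hL).exists_notMem_finite hfin
  have hne : alo γ u m ≠ alo γ u 0 := by
    intro h
    apply hmP
    exact ⟨⟨hm.1.le, hm.2⟩, 0, ⟨le_rfl, hL⟩, hm.1.ne, eq_of_hgt_alo hu (hcon m hm.1 hm.2) h⟩
  have hX := alo_cont hγ u
  have hXcl : alo γ u 0 = alo γ u L := by unfold alo; rw [hcl]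
  have key : ∀ f : ℝ → ℝ, Continuous f → f 0 = f L → (∀ s t, f s = f t → alo γ u s = alo γ u t) →
      f 0 < f m → False := by
    intro f hf hfcl hfa hlt
    have h1 : Set.Ioo (f 0) (f m) ⊆ f '' (selfInt γ L) := by
      intro y hy
      obtain ⟨s, t, hs0, hsm, hmt, htL, hs, ht⟩ := two_pre hf hm.1 hm.2 hfcl hy.1 hy.2
      refine ⟨s, ⟨⟨hs0.le, hsm.trans hm.2⟩, t, ⟨by linarith [hm.1], htL⟩, (hsm.trans hmt).ne', ?_⟩, hs⟩
      exact eq_of_hgt_alo hu (by rw [hcon s hs0 (hsm.trans hm.2), hcon t (by linarith [hm.1]) htL])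
        (hfa s t (by rw [hs, ht]))
    exact Set.Ioo_infinite hlt ((hfin.image f).subset h1)
  rcases lt_or_gt_of_ne hne with h | h
  · exact key (fun t => -alo γ u t) hX.neg (by rw [hXcl]) (fun s t hst => neg_injective hst)
      (neg_lt_neg h)
  · exact key (alo γ u) hX hXcl (fun s t hst => hst) h

lemma exc_of_lt (hγ : Continuous γ) (hcl : γ 0 = γ L)
    (hfin : (selfInt γ L).Finite) {u : ℂ} (hu : u ≠ 0) {m : ℝ} (hm0 : 0 < m) (hmL : m < L)
    (hlt : hgt γ u 0 < hgt γ u m) : ∃ a b, Exc γ L u a b := by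
  obtain ⟨c, hc, hcP⟩ := (Set.Ioo_infinite hlt).exists_notMem_finite (hfin.image (hgt γ u))
  have hw := hgt_cont hγ u
  have hLe : hgt γ u L = hgt γ u 0 := by unfold hgt; rw [hcl]
  obtain ⟨a, ha1, ha2, ha3, ha4⟩ := last_below hw hm0 hc.1.le hc.2
  obtain ⟨b, hb1, hb2, hb3, hb4⟩ := first_below hw hmL (by rw [hLe]; exact hc.1.le) hc.2
  have hbL : b < L := lt_of_le_of_ne hb2 (fun h => by rw [h, hLe] at hb3; linarith [hc.1])
  refine ⟨a, b, ⟨ha1, by linarith, hb2, by rw [ha3, hb3], ?_, ?_⟩⟩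
  · intro t h1 h2
    rw [ha3]
    rcases le_or_gt t m with h3 | h3
    · exact ha4 t h1 h3
    · exact hb4 t h3.le h2
  · intro h
    apply hcP
    refine ⟨a, ⟨⟨ha1, by linarith⟩, b, ⟨by linarith, hbL⟩, (ha2.trans hb1).ne', ?_⟩, ha3⟩
    exact eq_of_hgt_alo hu (by rw [ha3, hb3]) h

lemma exc_exists (hγ : Continuous γ) (hL : 0 < L) (hcl : γ 0 = γ L)
    (hfin : (selfInt γ L).Finite) {u : ℂ} (hu : u ≠ 0) :
    ∃ a b, Exc γ L u a b ∨ Exc γ L (-u) a b := by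
  obtain ⟨m, hm0, hmL, hne⟩ := hgt_nonconst hγ hL hcl hfin hu
  rcases lt_or_gt_of_ne hne with h | h
  · have hneg : ∀ t, hgt γ (-u) t = -hgt γ u t := by
      intro t; unfold hgt; rw [map_neg, neg_mul, Complex.neg_im]
    obtain ⟨a, b, hab⟩ := exc_of_lt hγ hcl hfin (neg_ne_zero.2 hu) hm0 hmL
      (by rw [hneg, hneg]; linarith)
    exact ⟨a, b, Or.inr hab⟩
  · obtain ⟨a, b, hab⟩ := exc_of_lt hγ hcl hfin hu hm0 hmL h
    exact ⟨a, b, Or.inl hab⟩

/-- all small nonzero vectors are good -/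
theorem punctured [Countable ι] (h : Fr L B γ Λ) (hc : Crv γ γ') (hcl : γ 0 = γ L)
    (hfin : (selfInt γ L).Finite) : ∃ ρ : ℝ, 0 < ρ ∧ ∀ v : ℂ, v ≠ 0 → ‖v‖ < ρ → Gd Λ v := by
  have key : ∃ ρ : ℝ, 0 < ρ ∧ ∀ u ∈ Metric.sphere (0:ℂ) 1, ∀ x : ℝ, 0 < x → x < ρ →
      Gd Λ (x * u) := by
    refine (isCompact_sphere (0:ℂ) 1).induction_on
      (p := fun S => ∃ ρ : ℝ, 0 < ρ ∧ ∀ u ∈ S, ‖u‖ = 1 → ∀ x : ℝ, 0 < x → x < ρ →
      Gd Λ (x * u)) ?_ ?_ ?_ ?_ |> fun ⟨ρ, hρ, h1⟩ => ⟨ρ, hρ, fun u hu => h1 u hu (by simpa using hu)⟩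
    · exact ⟨1, one_pos, fun u hu => hu.elim⟩
    · rintro s t hst ⟨ρ, hρ, h1⟩
      exact ⟨ρ, hρ, fun u hu => h1 u (hst hu)⟩
    · rintro s t ⟨ρ₁, hρ₁, h1⟩ ⟨ρ₂, hρ₂, h2⟩
      refine ⟨min ρ₁ ρ₂, lt_min hρ₁ hρ₂, fun u hu hu1 x hx hx2 => ?_⟩
      rcases hu with hu | hu
      · exact h1 u hu hu1 x hx (hx2.trans_le (min_le_left _ _))
      · exact h2 u hu hu1 x hx (hx2.trans_le (min_le_right _ _))
    · intro u₀ hu₀
      have hu₀n : ‖u₀‖ = 1 := by simpa using hu₀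
      have hu₀0 : u₀ ≠ 0 := by
        intro h0; rw [h0, norm_zero] at hu₀n; exact zero_ne_one hu₀n
      obtain ⟨a, b, hab⟩ := exc_exists h.cont h.Lpos hcl hfin hu₀0
      rcases hab with he | he
      · obtain ⟨η, hη, ρ, hρ, hp⟩ := he.persist h.cont
        refine ⟨Metric.ball u₀ η, mem_nhdsWithin_of_mem_nhds (Metric.ball_mem_nhds _ hη),
          ρ, hρ, fun u hu hu1 x hx hx2 => ?_⟩
        obtain ⟨a', b', he', hd⟩ := hp u (by simpa [dist_eq_norm] using hu)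
        exact he'.gd h hc hu1 hx (hx2.trans_le hd)
      · obtain ⟨η, hη, ρ, hρ, hp⟩ := he.persist h.cont
        refine ⟨Metric.ball u₀ η, mem_nhdsWithin_of_mem_nhds (Metric.ball_mem_nhds _ hη),
          ρ, hρ, fun u hu hu1 x hx hx2 => ?_⟩
        obtain ⟨a', b', he', hd⟩ := hp (-u) (by
          rw [neg_sub_neg, norm_sub_rev]; simpa [dist_eq_norm] using hu)
        have := (he'.gd h hc (by rw [norm_neg, hu1]) hx (hx2.trans_le hd)).neg
        rwa [mul_neg, neg_neg] at this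
  obtain ⟨ρ, hρ, h1⟩ := key
  refine ⟨ρ, hρ, fun v hv hv2 => ?_⟩
  have hvn : 0 < ‖v‖ := norm_pos_iff.2 hv
  have h2 := h1 (v / ‖v‖) (by
    rw [mem_sphere_zero_iff_norm, norm_div, Complex.norm_real, norm_norm, div_self hvn.ne'])
    ‖v‖ hvn hv2
  rwa [mul_div_cancel₀] at h2
  exact_mod_cast hvn.ne'

end Pool.Agent.CurveSpec
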