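import Mathlib

set_option autoImplicit false

open MeasureTheory Complex Finset Filter Topology SchwartzMap
open scoped FourierTransform RealInnerProductSpace ComplexConjugate

namespace Pool.Agent.CurveSpec

/-- the exponential `e^{2 pi i x}` -/
noncomputable def ex (x : ℝ) : ℂ := Complex.exp ((2 * Real.pi * x : ℝ) * Complex.I)

@[simp] lemma norm_ex (x : ℝ) : ‖ex x‖ = 1 := by
  unfold ex; exact Complex.norm_exp_ofReal_mul_I _

@[simp] lemma ex_zero : ex 0 = 1 := by simp [ex]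

lemma ex_add (x y : ℝ) : ex (x + y) = ex x * ex y := by
  unfold ex; rw [← Complex.exp_add]; congr 1; push_cast; ring

lemma conj_ex (x : ℝ) : conj (ex x) = ex (-x) := by
  unfold ex
  rw [← Complex.exp_conj]
  congr 1
  simp only [map_mul, Complex.conj_ofReal, Complex.conj_I]
  push_cast; ring

@[fun_prop] lemma continuous_ex : Continuous ex := by unfold ex; fun_prop

/-- bounded measurable functions -/
structure BM (f : ℝ → ℂ) : Prop where
  meas : Measurable f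
  bdd : ∃ C : ℝ, ∀ t, ‖f t‖ ≤ C

namespace BM

variable {f g : ℝ → ℂ}

lemma add (hf : BM f) (hg : BM g) : BM (fun t => f t + g t) := by
  obtain ⟨C, hC⟩ := hf.bdd
  obtain ⟨D, hD⟩ := hg.bdd
  exact ⟨hf.meas.add hg.meas, C + D, fun t => (norm_add_le _ _).trans (add_le_add (hC t) (hD t))⟩

lemma mul (hf : BM f) (hg : BM g) : BM (fun t => f t * g t) := by
  obtain ⟨C, hC⟩ := hf.bdd
  obtain ⟨D, hD⟩ := hg.bdd
  refine ⟨hf.meas.mul hg.meas, C * D, fun t => ?_⟩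
  rw [norm_mul]
  have h0 : 0 ≤ C := (norm_nonneg _).trans (hC t)
  exact mul_le_mul (hC t) (hD t) (norm_nonneg _) h0

lemma const (c : ℂ) : BM (fun _ => c) := ⟨measurable_const, ‖c‖, fun _ => le_rfl⟩

lemma star (hf : BM f) : BM (fun t => (starRingEnd ℂ) (f t)) := by
  obtain ⟨C, hC⟩ := hf.bdd
  refine ⟨Complex.continuous_conj.measurable.comp hf.meas, C, fun t => ?_⟩
  rw [Complex.norm_conj]; exact hC t

lemma intervalIntegrable (hf : BM f) (a b : ℝ) : IntervalIntegrable f volume a b := by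
  obtain ⟨C, hC⟩ := hf.bdd
  refine (intervalIntegrable_const (c := C)).mono_fun (hf.meas.aestronglyMeasurable) ?_
  exact Eventually.of_forall fun t => (hC t).trans (le_abs_self C)

lemma ex_comp {h : ℝ → ℝ} (hh : Measurable h) : BM (fun t => ex (h t)) :=
  ⟨continuous_ex.measurable.comp hh, 1, fun t => by simp⟩

end BM

/-- exponential coefficient -/
noncomputable def co (L : ℝ) (γ : ℝ → ℂ) (l : ℂ) (f : ℝ → ℂ) : ℂ :=
  ∫ t in (0:ℝ)..L, f t * ex (-⟪l, γ t⟫)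

/-- tight frame of exponentials on a parametrised curve in the plane -/
structure Fr {ι : Type*} (L B : ℝ) (γ : ℝ → ℂ) (Λ : ι → ℂ) : Prop where
  Lpos : 0 < L
  Bpos : 0 < B
  cont : Continuous γ
  frame : ∀ f : ℝ → ℂ, BM f →
    HasSum (fun i => ‖co L γ (Λ i) f‖ ^ 2) (B * ∫ t in (0:ℝ)..L, ‖f t‖ ^ 2)

namespace Fr

variable {ι : Type*} {L B : ℝ} {γ : ℝ → ℂ} {Λ : ι → ℂ}

lemma bm_ex (h : Fr L B γ Λ) (l : ℂ) : BM (fun t => ex (⟪l, γ t⟫)) := by
  apply BM.ex_comp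
  have := h.cont
  exact (by fun_prop : Continuous fun t => ⟪l, γ t⟫).measurable

lemma bm_ex' (h : Fr L B γ Λ) (l : ℂ) : BM (fun t => ex (-⟪l, γ t⟫)) := by
  apply BM.ex_comp
  have := h.cont
  exact (by fun_prop : Continuous fun t => -⟪l, γ t⟫).measurable

lemma co_add (h : Fr L B γ Λ) (l : ℂ) {f g : ℝ → ℂ} (hf : BM f) (hg : BM g) :
    co L γ l (fun t => f t + g t) = co L γ l f + co L γ l g := by
  unfold co
  rw [← intervalIntegral.integral_add ((hf.mul (h.bm_ex' l)).intervalIntegrable _ _)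
    ((hg.mul (h.bm_ex' l)).intervalIntegrable _ _)]
  congr 1; ext t; ring

lemma co_smul (l : ℂ) (f : ℝ → ℂ) (c : ℂ) :
    co L γ l (fun t => c * f t) = c * co L γ l f := by
  unfold co
  rw [← intervalIntegral.integral_const_mul]
  congr 1; ext t; ring

lemma pol_id (a b : ℂ) : a * conj b =
    (1 / 4 : ℂ) * ((‖a + b‖ ^ 2 : ℝ) - (‖a + (-1) * b‖ ^ 2 : ℝ) +
      I * (‖a + I * b‖ ^ 2 : ℝ) - I * (‖a + (-I) * b‖ ^ 2 : ℝ)) := by
  rw [← Complex.normSq_eq_norm_sq, ← Complex.normSq_eq_norm_sq, ← Complex.normSq_eq_norm_sq,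
    ← Complex.normSq_eq_norm_sq]
  apply Complex.ext <;>
  simp [Complex.normSq_apply] <;> ring

/-- polarised frame identity -/
lemma polar (h : Fr L B γ Λ) {f g : ℝ → ℂ} (hf : BM f) (hg : BM g) :
    HasSum (fun i => co L γ (Λ i) f * conj (co L γ (Λ i) g))
      (B * ∫ t in (0:ℝ)..L, f t * conj (g t)) := by
  have key : ∀ c : ℂ, HasSum (fun i => ((‖co L γ (Λ i) f + c * co L γ (Λ i) g‖ ^ 2 : ℝ) : ℂ))
      (B * ∫ t in (0:ℝ)..L, ((‖f t + c * g t‖ ^ 2 : ℝ) : ℂ)) := by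
    intro c
    have hcg : BM (fun t => c * g t) := (BM.const c).mul hg
    have h1 := h.frame _ (hf.add hcg)
    have h2 := Complex.hasSum_ofReal.2 h1
    have h3 : (((B * ∫ t in (0:ℝ)..L, ‖f t + c * g t‖ ^ 2 : ℝ)) : ℂ) =
        (B : ℂ) * ∫ t in (0:ℝ)..L, ((‖f t + c * g t‖ ^ 2 : ℝ) : ℂ) := by
      rw [intervalIntegral.integral_ofReal]; push_cast; ring
    rw [h3] at h2
    have h4 : (fun i => ((‖co L γ (Λ i) f + c * co L γ (Λ i) g‖ ^ 2 : ℝ) : ℂ)) =
        fun i => ((‖co L γ (Λ i) (fun t => f t + c * g t)‖ ^ 2 : ℝ) : ℂ) := by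
      funext i
      rw [h.co_add _ hf hcg, co_smul]
    rw [h4]
    exact h2
  have hint : ∀ c : ℂ, IntervalIntegrable (fun t => ((‖f t + c * g t‖ ^ 2 : ℝ) : ℂ))
      volume 0 L := by
    intro c
    have hcg : BM (fun t => f t + c * g t) := hf.add ((BM.const c).mul hg)
    obtain ⟨C, hC⟩ := hcg.bdd
    refine BM.intervalIntegrable ⟨?_, C ^ 2, fun t => ?_⟩ _ _
    · exact Complex.measurable_ofReal.comp ((hcg.meas.norm).pow_const 2)
    · rw [Complex.norm_real, Real.norm_of_nonneg (by positivity)]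
      exact pow_le_pow_left₀ (norm_nonneg _) (hC t) 2
  have h1 := ((((key 1).sub (key (-1))).add ((key I).mul_left I)).sub
    ((key (-I)).mul_left I)).mul_left (1 / 4 : ℂ)
  have e1 : ∀ i, (1 / 4 : ℂ) * (((‖co L γ (Λ i) f + 1 * co L γ (Λ i) g‖ ^ 2 : ℝ) : ℂ) -
      ((‖co L γ (Λ i) f + (-1) * co L γ (Λ i) g‖ ^ 2 : ℝ) : ℂ) +
      I * ((‖co L γ (Λ i) f + I * co L γ (Λ i) g‖ ^ 2 : ℝ) : ℂ) -
      I * ((‖co L γ (Λ i) f + (-I) * co L γ (Λ i) g‖ ^ 2 : ℝ) : ℂ)) =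
      co L γ (Λ i) f * conj (co L γ (Λ i) g) := by
    intro i
    rw [pol_id, one_mul]
  have e2 : (1 / 4 : ℂ) * ((B : ℂ) * (∫ t in (0:ℝ)..L, ((‖f t + 1 * g t‖ ^ 2 : ℝ) : ℂ)) -
      B * (∫ t in (0:ℝ)..L, ((‖f t + (-1) * g t‖ ^ 2 : ℝ) : ℂ)) +
      I * (B * ∫ t in (0:ℝ)..L, ((‖f t + I * g t‖ ^ 2 : ℝ) : ℂ)) -
      I * (B * ∫ t in (0:ℝ)..L, ((‖f t + (-I) * g t‖ ^ 2 : ℝ) : ℂ))) =
      B * ∫ t in (0:ℝ)..L, f t * conj (g t) := by
    have : ∫ t in (0:ℝ)..L, f t * conj (g t) = ∫ t in (0:ℝ)..L,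
        (1 / 4 : ℂ) * ((‖f t + 1 * g t‖ ^ 2 : ℝ) - (‖f t + (-1) * g t‖ ^ 2 : ℝ) +
        I * (‖f t + I * g t‖ ^ 2 : ℝ) - I * (‖f t + (-I) * g t‖ ^ 2 : ℝ)) := by
      congr 1; ext t; rw [pol_id, one_mul]
    rw [this, intervalIntegral.integral_const_mul, intervalIntegral.integral_sub,
      intervalIntegral.integral_add, intervalIntegral.integral_sub,
      intervalIntegral.integral_const_mul, intervalIntegral.integral_const_mul]
    · ring
    · exact hint 1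
    · exact hint (-1)
    · exact (hint 1).sub (hint (-1))
    · exact (hint I).const_mul I
    · exact ((hint 1).sub (hint (-1))).add ((hint I).const_mul I)
    · exact (hint (-I)).const_mul I
  rw [e2] at h1
  simpa only [e1] using h1

end Fr

end Pool.Agent.CurveSpec
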