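import Pool.Agent.Lib_MP_e9ccd1_an.Vanish

set_option autoImplicit false

open MeasureTheory Complex Finset Filter Topology SchwartzMap
open scoped FourierTransform RealInnerProductSpace ComplexConjugate ContDiff

namespace Pool.Agent.CurveSpec

variable {ι : Type*} {L B : ℝ} {γ γ' : ℝ → ℂ} {Λ : ι → ℂ}

/-- test functions -/
structure TF (Ψ : ℂ → ℂ) : Prop where
  smooth : ContDiff ℝ ∞ Ψ
  supp : HasCompactSupport Ψ

/-- the Fourier transform of the frequency measure vanishes near `v₀` -/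
def Gd (Λ : ι → ℂ) (v₀ : ℂ) : Prop :=
  ∃ ζ : ℝ, 0 < ζ ∧ ∀ Ψ : ℂ → ℂ, TF Ψ → (∀ v, Ψ v ≠ 0 → ‖v - v₀‖ < ζ) →
    HasSum (fun i => (𝓕 Ψ) (Λ i)) 0

lemma Good.gd {v₀ : ℂ} (h : Good Λ v₀) : Gd Λ v₀ := by
  obtain ⟨ζ, hζ, h1⟩ := h
  refine ⟨ζ, hζ, fun Ψ hΨ hs => ?_⟩
  have h2 := h1 (hΨ.supp.toSchwartzMap hΨ.smooth) hs
  exact h2

lemma fourier_ex' (Ψ : ℂ → ℂ) (l : ℂ) : (𝓕 Ψ) l = ∫ v : ℂ, Ψ v * ex (-⟪l, v⟫) := by
  rw [Real.fourier_eq']
  congr 1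
  ext v
  rw [smul_eq_mul, mul_comm, real_inner_comm v l]
  congr 1
  unfold ex
  congr 2
  push_cast
  ring

lemma Gd.neg {v₀ : ℂ} (h : Gd Λ v₀) : Gd Λ (-v₀) := by
  obtain ⟨ζ, hζ, h1⟩ := h
  refine ⟨ζ, hζ, fun Ψ hΨ hs => ?_⟩
  have h2 := h1 (fun v => conj (Ψ (-v))) ⟨?_, ?_⟩ ?_
  · have h3 : ∀ i, (𝓕 (fun v => conj (Ψ (-v)))) (Λ i) = conj ((𝓕 Ψ) (Λ i)) := by
      intro i
      rw [fourier_ex', fourier_ex', ← integral_conj]
      rw [← integral_neg_eq_self (fun v => conj (Ψ v * ex (-⟪Λ i, v⟫)))]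
      congr 1
      ext v
      rw [map_mul, conj_ex, inner_neg_right, neg_neg]
    simp only [h3] at h2
    have h4 := (Complex.hasSum_conj' ).1 (by simpa using h2)
    simpa using h4
  · exact Complex.conjCLE.contDiff.comp (hΨ.smooth.comp contDiff_neg)
  · have h3 : HasCompactSupport (fun v => Ψ (-v)) :=
      hΨ.supp.comp_homeomorph (Homeomorph.neg ℂ)
    exact h3.comp_left (g := fun z => conj z) (by simp)
  · intro v hv
    have h3 : Ψ (-v) ≠ 0 := by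
      intro h4; apply hv; simp [h4]
    have h5 := hs _ h3
    rw [sub_neg_eq_add] at h5
    rw [← norm_neg]
    rwa [neg_sub, sub_eq_add_neg, add_comm]

end Pool.Agent.CurveSpec
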