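import Pool.Agent.Lib_MP_e9ccd1_an.Excursion

set_option autoImplicit false

open MeasureTheory Complex Finset Filter Topology SchwartzMap
open scoped FourierTransform RealInnerProductSpace ComplexConjugate ContDiff ENNReal

namespace Pool.Agent.CurveSpec

variable {ι : Type*} {L B : ℝ} {γ γ' : ℝ → ℂ} {Λ : ι → ℂ}

lemma re_ex_ge {x : ℝ} (hx : |x| ≤ 1 / 8) : 1 / 2 ≤ (ex x).re := by
  have h1 : (ex x).re = Real.cos (2 * Real.pi * x) := by
    unfold ex; rw [Complex.exp_ofReal_mul_I_re]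
  rw [h1]
  have h2 := Real.one_sub_sq_div_two_le_cos (x := 2 * Real.pi * x)
  have h3 : |2 * Real.pi * x| ≤ 1 := by
    rw [abs_mul, abs_of_pos (by positivity)]
    nlinarith [Real.pi_lt_four, Real.pi_pos, abs_nonneg x]
  have h4 : (2 * Real.pi * x) ^ 2 ≤ 1 := by
    rw [← sq_abs]; nlinarith [abs_nonneg (2 * Real.pi * x)]
  linarith

lemma coeff_ge (hγ : Continuous γ) (hlip : ∀ s t, ‖γ s - γ t‖ ≤ |s - t|) {R : ℝ} (hR : 0 < R)
    {ζ : ℂ} (hζ : ‖ζ‖ ≤ R) :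
    1 / (16 * R) ≤ ‖∫ t in (0:ℝ)..(1 / (8 * R)), ex ⟪ζ, γ t⟫‖ := by
  have h8 : 0 < 1 / (8 * R) := by positivity
  have e1 : ∫ t in (0:ℝ)..(1 / (8 * R)), ex ⟪ζ, γ t⟫ =
      ex ⟪ζ, γ 0⟫ * ∫ t in (0:ℝ)..(1 / (8 * R)), ex ⟪ζ, γ t - γ 0⟫ := by
    rw [← intervalIntegral.integral_const_mul]
    congr 1
    ext t
    rw [← ex_add, inner_sub_right]
    congr 1; ring
  rw [e1, norm_mul, norm_ex, one_mul]
  refine le_trans ?_ (Complex.re_le_norm _)
  have hint : IntervalIntegrable (fun t => ex ⟪ζ, γ t - γ 0⟫) volume 0 (1 / (8 * R)) :=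
    (by fun_prop : Continuous fun t => ex ⟪ζ, γ t - γ 0⟫).intervalIntegrable _ _
  have e2 : (∫ t in (0:ℝ)..(1 / (8 * R)), ex ⟪ζ, γ t - γ 0⟫).re =
      ∫ t in (0:ℝ)..(1 / (8 * R)), (ex ⟪ζ, γ t - γ 0⟫).re := by
    have := Complex.reCLM.intervalIntegral_comp_comm hint
    simpa using this.symm
  rw [e2]
  have e3 : 1 / (16 * R) = ∫ _t in (0:ℝ)..(1 / (8 * R)), (1 / 2 : ℝ) := by
    rw [intervalIntegral.integral_const, smul_eq_mul]; field_simp; norm_num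
  rw [e3]
  apply intervalIntegral.integral_mono_on h8.le (intervalIntegrable_const)
    (by
      have := (by fun_prop : Continuous fun t => ex ⟪ζ, γ t - γ 0⟫)
      exact (Complex.continuous_re.comp this).intervalIntegrable _ _)
  intro t ht
  apply re_ex_ge
  refine (abs_real_inner_le_norm _ _).trans ?_
  have h1 := hlip t 0
  rw [sub_zero, abs_of_nonneg ht.1] at h1
  calc ‖ζ‖ * ‖γ t - γ 0‖ ≤ R * (1 / (8 * R)) := by
        apply mul_le_mul hζ (h1.trans ht.2) (norm_nonneg _) hR.le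
    _ = 1 / 8 := by field_simp

/-- counting bound for the frequencies in a disc -/
lemma count_bound (h : Fr L B γ Λ) (hlip : ∀ s t, ‖γ s - γ t‖ ≤ |s - t|) {R : ℝ} (hR : 0 < R)
    (hRL : 1 / (8 * R) ≤ L) (ξ : ℂ) :
    ∑' i, (Set.indicator {i | ‖Λ i - ξ‖ ≤ R} (fun _ => (1 : ℝ≥0∞)) i) ≤
      ENNReal.ofReal (32 * B * R) := by
  have hB := h.Bpos
  set H := 1 / (8 * R) with hH
  have hHpos : 0 < H := by positivity
  have h1 := h.frame_ab le_rfl hHpos.le hRL (md_bm h.cont (BM.const 1) ξ)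
  have h2 : (B * ∫ t in (0:ℝ)..H, ‖md γ ξ (fun _ => 1) t‖ ^ 2) = B * H := by
    congr 1
    have : ∀ t, ‖md γ ξ (fun _ => 1) t‖ ^ 2 = (1 : ℝ) := by
      intro t; unfold md; rw [norm_mul, norm_ex, norm_one]; norm_num
    simp only [this, intervalIntegral.integral_const, smul_eq_mul]
    ring
  rw [h2] at h1
  have h3 : ∀ i, Set.indicator {i | ‖Λ i - ξ‖ ≤ R} (fun _ => (1 : ℝ≥0∞)) i ≤
      ENNReal.ofReal (256 * R ^ 2) *
        ENNReal.ofReal (‖cab 0 H γ (Λ i) (md γ ξ (fun _ => 1))‖ ^ 2) := by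
    intro i
    by_cases hi : ‖Λ i - ξ‖ ≤ R
    · rw [Set.indicator_of_mem (by exact hi), ← ENNReal.ofReal_mul (by positivity),
        ← ENNReal.ofReal_one]
      apply ENNReal.ofReal_le_ofReal
      have h4 := coeff_ge h.cont hlip hR (ζ := ξ - Λ i) (by rwa [norm_sub_rev])
      rw [cab_md]
      simp only [one_mul]
      have h5 : (1 / (16 * R)) ^ 2 ≤ ‖∫ t in (0:ℝ)..H, ex ⟪ξ - Λ i, γ t⟫‖ ^ 2 :=
        pow_le_pow_left₀ (by positivity) h4 2
      calc (1:ℝ) = 256 * R ^ 2 * (1 / (16 * R)) ^ 2 := by field_simp; norm_num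
        _ ≤ _ := mul_le_mul_of_nonneg_left h5 (by positivity)
    · rw [Set.indicator_of_notMem (by exact hi)]; exact zero_le
  refine (ENNReal.tsum_le_tsum h3).trans ?_
  rw [ENNReal.tsum_mul_left, ← ENNReal.ofReal_tsum_of_nonneg (fun i => by positivity) h1.summable,
    h1.tsum_eq, ← ENNReal.ofReal_mul (by positivity)]
  apply ENNReal.ofReal_le_ofReal
  rw [hH]
  apply le_of_eq
  field_simp
  norm_num

lemma weight_le (s : ℝ) (hs : 0 ≤ s) :
    ENNReal.ofReal (((1 + s) ^ 2)⁻¹) ≤ ∑' k : ℕ, ENNReal.ofReal (4 * (1 / 4) ^ k) *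
      (Set.indicator {x : ℝ | x ≤ 2 ^ k} (fun _ => (1 : ℝ≥0∞)) s) := by
  classical
  have hex : ∃ k : ℕ, s ≤ 2 ^ k := by
    obtain ⟨k, hk⟩ := pow_unbounded_of_one_lt s (by norm_num : (1:ℝ) < 2)
    exact ⟨k, hk.le⟩
  have hk := Nat.find_spec hex
  have hmin := fun m => Nat.find_min (m := m) hex
  set k := Nat.find hex with hkd
  refine le_trans ?_ (ENNReal.le_tsum k)
  rw [Set.indicator_of_mem (by exact hk), mul_one]
  apply ENNReal.ofReal_le_ofReal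
  rcases Nat.eq_zero_or_pos k with h0 | h0
  · rw [h0, pow_zero, mul_one]
    have : ((1 + s) ^ 2)⁻¹ ≤ 1 := inv_le_one_of_one_le₀ (by nlinarith)
    linarith
  · obtain ⟨m, hm⟩ := Nat.exists_eq_succ_of_ne_zero h0.ne'
    have h1 := hmin m (by omega)
    push Not at h1
    have h2 : (2:ℝ) ^ m > 0 := by positivity
    have h3 : ((1 + s) ^ 2)⁻¹ ≤ ((2 ^ m) ^ 2)⁻¹ := by
      apply inv_anti₀ (by positivity)
      nlinarith
    have h4 : ((2 ^ m) ^ 2 : ℝ)⁻¹ = 4 * (1 / 4) ^ k := by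
      rw [hm, ← pow_mul, mul_comm m 2, pow_mul, Nat.succ_eq_add_one, pow_succ, one_div, inv_pow]
      norm_num
      ring
    linarith

/-- weighted counting bound -/
lemma weight_sum (h : Fr L B γ Λ) (hlip : ∀ s t, ‖γ s - γ t‖ ≤ |s - t|) {ρ : ℝ} (hρ : 0 < ρ)
    (hρL : ρ ≤ 8 * L) (ξ : ℂ) :
    ∑' i, ENNReal.ofReal (((1 + ρ * ‖Λ i - ξ‖) ^ 2)⁻¹) ≤ ENNReal.ofReal (256 * B / ρ) := by
  have hB := h.Bpos
  calc ∑' i, ENNReal.ofReal (((1 + ρ * ‖Λ i - ξ‖) ^ 2)⁻¹)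
      ≤ ∑' i, ∑' k : ℕ, ENNReal.ofReal (4 * (1 / 4) ^ k) *
      (Set.indicator {x : ℝ | x ≤ 2 ^ k} (fun _ => (1 : ℝ≥0∞)) (ρ * ‖Λ i - ξ‖)) :=
        ENNReal.tsum_le_tsum fun i => weight_le _ (by positivity)
    _ = ∑' k : ℕ, ∑' i, ENNReal.ofReal (4 * (1 / 4) ^ k) *
      (Set.indicator {x : ℝ | x ≤ 2 ^ k} (fun _ => (1 : ℝ≥0∞)) (ρ * ‖Λ i - ξ‖)) :=
        ENNReal.tsum_comm
    _ ≤ ∑' k : ℕ, ENNReal.ofReal (128 * B / ρ * (1 / 2) ^ k) := by
        apply ENNReal.tsum_le_tsum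
        intro k
        rw [ENNReal.tsum_mul_left]
        have h1 := count_bound h hlip (R := 2 ^ k / ρ) (by positivity) (by
          have h2 : (1:ℝ) ≤ 2 ^ k := one_le_pow₀ (by norm_num)
          have h3 : 1 / (8 * (2 ^ k / ρ)) = ρ / 8 / 2 ^ k := by field_simp
          rw [h3]
          exact (div_le_self (by positivity) h2).trans (by linarith)) ξ
        have h4 : ∀ i, Set.indicator {x : ℝ | x ≤ 2 ^ k} (fun _ => (1 : ℝ≥0∞)) (ρ * ‖Λ i - ξ‖) =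
            Set.indicator {i | ‖Λ i - ξ‖ ≤ 2 ^ k / ρ} (fun _ => (1 : ℝ≥0∞)) i := by
          intro i
          by_cases hi : ‖Λ i - ξ‖ ≤ 2 ^ k / ρ
          · have hi' : ρ * ‖Λ i - ξ‖ ≤ 2 ^ k := by rwa [le_div_iff₀ hρ, mul_comm] at hi
            rw [Set.indicator_of_mem (show ρ * ‖Λ i - ξ‖ ∈ {x : ℝ | x ≤ 2 ^ k} from hi'),
              Set.indicator_of_mem (show i ∈ {i | ‖Λ i - ξ‖ ≤ 2 ^ k / ρ} from hi)]
          · have hi' : ¬ ρ * ‖Λ i - ξ‖ ≤ 2 ^ k := by rwa [le_div_iff₀ hρ, mul_comm] at hi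
            rw [Set.indicator_of_notMem (show ρ * ‖Λ i - ξ‖ ∉ {x : ℝ | x ≤ 2 ^ k} from hi'),
              Set.indicator_of_notMem (show i ∉ {i | ‖Λ i - ξ‖ ≤ 2 ^ k / ρ} from hi)]
        simp only [h4]
        refine (mul_le_mul_right h1 _).trans ?_
        rw [← ENNReal.ofReal_mul (by positivity)]
        apply ENNReal.ofReal_le_ofReal
        apply le_of_eq
        have h5 : ((1:ℝ) / 4) ^ k * 2 ^ k = (1 / 2) ^ k := by rw [← mul_pow]; norm_num
        rw [← h5]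
        ring
    _ = ENNReal.ofReal (256 * B / ρ) := by
        rw [← ENNReal.ofReal_tsum_of_nonneg (fun k => by positivity)
          (summable_geometric_two.mul_left _), tsum_mul_left, tsum_geometric_two]
        congr 1; ring

end Pool.Agent.CurveSpec
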