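import Pool.Agent.Lib_MP_e9ccd1_an.Defs

set_option autoImplicit false

open MeasureTheory Complex Finset Filter Topology
open scoped ComplexConjugate ENNReal

namespace Pool.Agent.CurveSpec

variable {E : Type*} [NormedAddCommGroup E] [InnerProductSpace ℝ E] [MeasurableSpace E]

lemma conj_expo (l x : E) : conj (expo l x) = expo (-l) x := by
  unfold expo
  rw [← Complex.exp_conj]
  congr 1
  simp only [map_mul, Complex.conj_ofReal, Complex.conj_I, inner_neg_left, map_ofNat]
  push_cast; ring

/-- every spectral measure is tight-frame spectral, with constant one -/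
theorem Spectral.tight {μ : Measure E} (h : Spectral μ) : TightFrameSpectral μ := by
  obtain ⟨Λ, hΛ, b, hb⟩ := h
  refine ⟨Λ, hΛ, 1, one_pos, fun f hf => ?_⟩
  set g : Lp ℂ 2 μ := hf.toLp f with hg
  have hgf : ∀ᵐ x ∂μ, g x = f x := hf.coeFn_toLp
  have h1 := b.hasSum_inner_mul_inner g g
  have h2 : ∀ l : Λ, inner ℂ (b l) g = ∫ x, f x * expo (-(l : E)) x ∂μ := by
    intro l
    rw [L2.inner_def]
    apply integral_congr_ae
    filter_upwards [hgf, hb l] with x hx hbx
    rw [RCLike.inner_apply, hx, hbx, conj_expo]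
  have h3 : ∀ l : Λ, inner ℂ g (b l) * inner ℂ (b l) g =
      ((‖∫ x, f x * expo (-(l : E)) x ∂μ‖ ^ 2 : ℝ) : ℂ) := by
    intro l
    rw [← inner_conj_symm, h2, mul_comm, Complex.mul_conj, Complex.normSq_eq_norm_sq]
  have h4 : inner ℂ g g = ((∫ x, ‖f x‖ ^ 2 ∂μ : ℝ) : ℂ) := by
    rw [L2.inner_def, ← integral_complex_ofReal]
    apply integral_congr_ae
    filter_upwards [hgf] with x hx
    rw [RCLike.inner_apply, hx, Complex.mul_conj, Complex.normSq_eq_norm_sq]
  rw [h4] at h1
  simp only [h3] at h1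
  rw [one_mul]
  exact Complex.hasSum_ofReal.1 h1

end Pool.Agent.CurveSpec
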