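import Mathlib

set_option autoImplicit false

open MeasureTheory Complex Finset Filter Topology

namespace Pool.Agent.CurveSpec

/-- a Lipschitz curve in the plane with its derivative -/
structure Crv (γ γ' : ℝ → ℂ) : Prop where
  cont : Continuous γ
  meas : Measurable γ'
  bdd : ∀ t, ‖γ' t‖ ≤ 1
  der : ∃ N : Set ℝ, N.Countable ∧ ∀ t ∉ N, HasDerivAt γ (γ' t) t

namespace Crv

variable {γ γ' : ℝ → ℂ}

lemma ii (hc : Crv γ γ') (a b : ℝ) : IntervalIntegrable γ' volume a b := by
  refine (intervalIntegrable_const (c := (1 : ℝ))).mono_fun (hc.meas.aestronglyMeasurable) ?_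
  exact Eventually.of_forall fun t => by simpa using hc.bdd t

lemma lip (hc : Crv γ γ') (s t : ℝ) : ‖γ s - γ t‖ ≤ |s - t| := by
  obtain ⟨N, hN, hd⟩ := hc.der
  rw [← integral_eq_of_hasDerivAt_off_countable γ γ' hN hc.cont.continuousOn
    (fun x hx => hd x hx.2) (hc.ii t s)]
  have := intervalIntegral.norm_integral_le_of_norm_le_const (C := 1) (a := t) (b := s)
    (f := γ') (fun x _ => hc.bdd x)
  simpa using this

end Crv

section prim

variable {G : ℂ → ℂ}

/-- horizontal primitive -/
noncomputable def prim (G : ℂ → ℂ) (M : ℝ) (v : ℂ) : ℂ := ∫ τ in (0:ℝ)..M, G (v - τ)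

/-- derivative of the horizontal primitive -/
noncomputable def prim' (G : ℂ → ℂ) (M : ℝ) (v : ℂ) : ℂ →L[ℝ] ℂ :=
  ∫ τ in (0:ℝ)..M, fderiv ℝ G (v - τ)

lemma hasFDerivAt_prim (hG : ContDiff ℝ 1 G) {C : ℝ} (hC : ∀ v, ‖fderiv ℝ G v‖ ≤ C) (M : ℝ)
    (v : ℂ) : HasFDerivAt (prim G M) (prim' G M v) v := by
  have hcont := hG.continuous
  have hfc : Continuous (fderiv ℝ G) := hG.continuous_fderiv (by norm_num)
  unfold prim prim'
  apply intervalIntegral.hasFDerivAt_integral_of_dominated_of_fderiv_le
    (bound := fun _ => C) (s := Set.univ) (F := fun (v : ℂ) (τ : ℝ) => G (v - τ))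
    (F' := fun (v : ℂ) (τ : ℝ) => fderiv ℝ G (v - τ)) Filter.univ_mem
  · exact Eventually.of_forall fun x => (by fun_prop : Continuous fun τ : ℝ =>
      G (x - τ)).aestronglyMeasurable
  · exact (by fun_prop : Continuous fun τ : ℝ => G (v - τ)).intervalIntegrable _ _
  · exact (by fun_prop : Continuous fun τ : ℝ => fderiv ℝ G (v - τ)).aestronglyMeasurable
  · exact Eventually.of_forall fun t _ x _ => hC _
  · exact intervalIntegrable_const
  · refine Eventually.of_forall fun t _ x _ => ?_
    have h1 : HasFDerivAt G (fderiv ℝ G (x - t)) (x - t) :=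
      (hG.differentiable (by norm_num) _).hasFDerivAt
    have h2 : HasFDerivAt (fun x : ℂ => x - t) (ContinuousLinearMap.id ℝ ℂ) x :=
      (hasFDerivAt_id x).sub_const _
    have h3 : HasFDerivAt (fun x : ℂ => G (x - t))
        ((fderiv ℝ G (x - t)).comp (ContinuousLinearMap.id ℝ ℂ)) x := h1.comp x h2
    rwa [ContinuousLinearMap.comp_id] at h3

lemma continuous_prim (hG : ContDiff ℝ 1 G) (M : ℝ) : Continuous (prim G M) := by
  have hcont := hG.continuous
  unfold prim
  apply intervalIntegral.continuous_parametric_intervalIntegral_of_continuous'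
  fun_prop

lemma continuous_prim' (hG : ContDiff ℝ 1 G) (M : ℝ) : Continuous (prim' G M) := by
  have hfc : Continuous (fderiv ℝ G) := hG.continuous_fderiv (by norm_num)
  unfold prim'
  apply intervalIntegral.continuous_parametric_intervalIntegral_of_continuous'
  fun_prop

lemma prim'_one (hG : ContDiff ℝ 1 G) (M : ℝ) (v : ℂ) : prim' G M v 1 = G v - G (v - M) := by
  have hfc : Continuous (fderiv ℝ G) := hG.continuous_fderiv (by norm_num)
  unfold prim'
  have hint : IntervalIntegrable (fun τ : ℝ => fderiv ℝ G (v - τ)) volume 0 M :=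
    (by fun_prop : Continuous fun τ : ℝ => fderiv ℝ G (v - τ)).intervalIntegrable _ _
  rw [ContinuousLinearMap.intervalIntegral_apply hint]
  have h1 : ∀ x ∈ Set.uIcc (0:ℝ) M, HasDerivAt (fun τ : ℝ => -G (v - τ))
      (fderiv ℝ G (v - x) 1) x := by
    intro x _
    have h2 : HasFDerivAt G (fderiv ℝ G (v - x)) (v - x) :=
      (hG.differentiable (by norm_num) _).hasFDerivAt
    have h3 : HasDerivAt (fun τ : ℝ => v - (τ : ℂ)) (-1) x :=
      (Complex.ofRealCLM.hasDerivAt (x := x)).const_sub v
    have h4 : HasDerivAt (fun τ : ℝ => -G (v - τ)) (-(fderiv ℝ G (v - x)) (-1)) x :=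
      (h2.comp_hasDerivAt x h3).neg
    refine h4.congr_deriv ?_
    simp
  rw [intervalIntegral.integral_eq_sub_of_hasDerivAt h1]
  · simp; ring
  · exact (by fun_prop : Continuous fun τ : ℝ => fderiv ℝ G (v - τ) 1).intervalIntegrable _ _

lemma prim'_apply (hG : ContDiff ℝ 1 G) (M : ℝ) (v z : ℂ) :
    prim' G M v z = z.re * (G v - G (v - M)) + z.im * prim' G M v I := by
  have h1 : z = z.re • (1 : ℂ) + z.im • I := by
    simp [Complex.re_add_im]
  conv_lhs => rw [h1]
  rw [map_add, map_smul, map_smul, prim'_one hG]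
  simp

end prim

/-- slice integral -/
noncomputable def slice (G : ℂ → ℂ) (w : ℝ) : ℂ := ∫ x : ℝ, G (x + w * I)

section local_lemma

variable {γ γ' : ℝ → ℂ}

lemma slice_eq {G : ℂ → ℂ} {x₀ ζ : ℝ}
    (hsupp : ∀ v, G v ≠ 0 → |v.re - x₀| < ζ ∧ |v.im| < ζ) (w : ℝ) {c d : ℝ} (hc : c ≤ x₀ - ζ)
    (hd : x₀ + ζ ≤ d) : ∫ x in c..d, G (x + w * I) = slice G w := by
  unfold slice
  apply intervalIntegral.integral_eq_integral_of_support_subset
  intro x hx
  have h1 := (hsupp _ hx).1
  have h2 : ((x : ℂ) + w * I).re = x := by simp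
  rw [h2, abs_lt] at h1
  constructor <;> linarith

lemma slice_cont {G : ℂ → ℂ} (hG : Continuous G) {x₀ ζ : ℝ}
    (hsupp : ∀ v, G v ≠ 0 → |v.re - x₀| < ζ ∧ |v.im| < ζ) : Continuous (slice G) := by
  have h1 : slice G = fun w : ℝ => ∫ x in (x₀ - ζ)..(x₀ + ζ), G (x + w * I) := by
    funext w
    rw [slice_eq hsupp w le_rfl le_rfl]
  rw [h1]
  apply intervalIntegral.continuous_parametric_intervalIntegral_of_continuous'
  fun_prop

lemma slice_zero {G : ℂ → ℂ} {x₀ ζ : ℝ}
    (hsupp : ∀ v, G v ≠ 0 → |v.re - x₀| < ζ ∧ |v.im| < ζ) {w : ℝ} (hw : ζ ≤ |w|) :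
    slice G w = 0 := by
  unfold slice
  have : ∀ x : ℝ, G (x + w * I) = 0 := by
    intro x
    by_contra hne
    have h1 := (hsupp _ hne).2
    have h2 : ((x : ℂ) + w * I).im = w := by simp
    rw [h2] at h1
    linarith
  simp [this]

lemma compactSupp {G : ℂ → ℂ} {x₀ ζ : ℝ}
    (hsupp : ∀ v, G v ≠ 0 → |v.re - x₀| < ζ ∧ |v.im| < ζ) : HasCompactSupport G := by
  apply HasCompactSupport.intro (isCompact_closedBall (0 : ℂ) (|x₀| + ζ + ζ))
  intro v hv
  by_contra hne
  apply hv
  obtain ⟨h1, h2⟩ := hsupp v hne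
  rw [mem_closedBall_zero_iff]
  have h3 := Complex.norm_le_abs_re_add_abs_im v
  have h4 : |v.re| ≤ |x₀| + ζ := by
    have : |v.re| = |(v.re - x₀) + x₀| := by ring_nf
    rw [this]
    exact (abs_add_le _ _).trans (by linarith)
  linarith

lemma integral_slice {G : ℂ → ℂ} (hG : Continuous G) {x₀ ζ : ℝ}
    (hsupp : ∀ v, G v ≠ 0 → |v.re - x₀| < ζ ∧ |v.im| < ζ) :
    ∫ v, G v = ∫ w : ℝ, slice G w := by
  have hint : Integrable G := hG.integrable_of_hasCompactSupport (compactSupp hsupp)
  have hmp := Complex.volume_preserving_equiv_real_prod.symm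
  rw [← hmp.integral_comp (Complex.measurableEquivRealProd.symm.measurableEmbedding)]
  have hint2 : Integrable (fun p : ℝ × ℝ => G (Complex.measurableEquivRealProd.symm p)) :=
    (hmp.integrable_comp_emb (Complex.measurableEquivRealProd.symm.measurableEmbedding)).2 hint
  rw [Measure.volume_eq_prod] at hint2 ⊢
  rw [integral_prod_symm _ hint2]
  congr 1
  ext w
  unfold slice
  congr 1
  ext x
  congr 1
  apply Complex.ext <;> simp

/-- Green's theorem for the difference map on an excursion. -/
theorem local_stokes (hc : Crv γ γ') {a b : ℝ} (hab : a < b) (hfeet : (γ a).im = (γ b).im)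
    (habove : ∀ t ∈ Set.Ioo a b, (γ a).im < (γ t).im) {x₀ : ℝ} (hx : 0 < x₀)
    (hx2 : x₀ < (γ b).re - (γ a).re) :
    ∃ ζ : ℝ, 0 < ζ ∧ ∀ G : ℂ → ℂ, ContDiff ℝ 1 G →
      (∀ v, G v ≠ 0 → |v.re - x₀| < ζ ∧ |v.im| < ζ) →
      ∫ p : ℝ × ℝ, G (γ p.1 - γ p.2) *
        (((γ' p.2).re * (γ' p.1).im - (γ' p.2).im * (γ' p.1).re : ℝ) : ℂ)
        ∂((volume.restrict (Set.Ioc a b)).prod (volume.restrict (Set.Ioc a b))) =
      - ∫ v, G v := by
  obtain ⟨N, hN, hd⟩ := hc.der
  set c := (γ a).im with hcdef
  set φ := (γ b).re - (γ a).re with hφ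
  have hγ := hc.cont
  have hγ' := hc.meas
  -- constants
  set κ : ℝ := min (min x₀ ((φ - x₀) / 2)) 1 with hκ
  have hκ0 : 0 < κ := by
    rw [hκ]; exact lt_min (lt_min hx (by linarith)) one_pos
  have hκ1 : κ ≤ x₀ := (min_le_left _ _).trans (min_le_left _ _)
  have hκ2 : κ ≤ (φ - x₀) / 2 := (min_le_left _ _).trans (min_le_right _ _)
  have hκ3 : κ ≤ 1 := min_le_right _ _
  set δ : ℝ := min (κ / 2) ((b - a) / 3) with hδ
  have hδ0 : 0 < δ := lt_min (by linarith) (by linarith)
  have hδ1 : δ ≤ κ / 2 := min_le_left _ _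
  have hδ2 : δ ≤ (b - a) / 3 := min_le_right _ _
  obtain ⟨η, hη0, hη⟩ : ∃ η : ℝ, 0 < η ∧ ∀ t ∈ Set.Icc (a + δ) (b - δ), c + η ≤ (γ t).im := by
    have hne : (Set.Icc (a + δ) (b - δ)).Nonempty := Set.nonempty_Icc.2 (by linarith)
    obtain ⟨t₀, ht₀, hmin⟩ := isCompact_Icc.exists_isMinOn hne
      ((Complex.continuous_im.comp hγ).continuousOn)
    refine ⟨(γ t₀).im - c, sub_pos.2 (habove t₀ ⟨by linarith [ht₀.1], by linarith [ht₀.2]⟩),
      fun t ht => ?_⟩
    have h1 : (γ t₀).im ≤ (γ t).im := hmin ht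
    linarith
  set ζ : ℝ := min (κ / 2) η with hζ
  have hζ0 : 0 < ζ := lt_min (by linarith) hη0
  have hζ1 : ζ ≤ κ / 2 := min_le_left _ _
  have hζ2 : ζ ≤ η := min_le_right _ _
  refine ⟨ζ, hζ0, fun G hG hsupp => ?_⟩
  have hGc := hG.continuous
  have hcs := compactSupp hsupp
  obtain ⟨C, hC⟩ := (hG.continuous_fderiv (by norm_num)).bounded_above_of_compact_support
    (hcs.fderiv ℝ)
  obtain ⟨C₀, hC₀⟩ := hGc.bounded_above_of_compact_support hcs
  set M : ℝ := (b - a) + 1 with hM
  -- geometry
  have hre : ∀ s t, |(γ s - γ t).re| ≤ |s - t| := fun s t =>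
    (Complex.abs_re_le_norm _).trans (hc.lip s t)
  have hgood : ∀ s t, |s - t| ≤ b - a → G (γ s - γ t - M) = 0 := by
    intro s t hst
    by_contra hne
    have h1 := (hsupp _ hne).1
    have h2 : (γ s - γ t - (M : ℂ)).re = (γ s - γ t).re - M := by simp
    rw [h2, abs_lt] at h1
    have h3 := (abs_le.1 (hre s t)).2
    linarith
  have Hzero_im : ∀ v : ℂ, ζ ≤ |v.im| → prim G M v = 0 := by
    intro v hv
    unfold prim
    have : ∀ τ : ℝ, G (v - τ) = 0 := by
      intro τ
      by_contra hne
      have h1 := (hsupp _ hne).2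
      have h2 : (v - (τ : ℂ)).im = v.im := by simp
      rw [h2] at h1
      linarith
    simp [this]
  have Hzero_re : ∀ v : ℂ, v.re ≤ x₀ - ζ → prim G M v = 0 := by
    intro v hv
    unfold prim
    rw [← intervalIntegral.integral_zero (a := (0:ℝ)) (b := M) (E := ℂ)]
    apply intervalIntegral.integral_congr
    intro τ hτ
    rw [Set.uIcc_of_le (by linarith)] at hτ
    by_contra hne
    have h1 := (hsupp _ hne).1
    have h2 : (v - (τ : ℂ)).re = v.re - τ := by simp
    rw [h2, abs_lt] at h1
    linarith [hτ.1]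
  have Hslice : ∀ v : ℂ, x₀ + ζ ≤ v.re → v.re ≤ b - a → prim G M v = slice G v.im := by
    intro v hv1 hv2
    unfold prim
    have h1 : ∀ τ : ℝ, G (v - τ) = (fun x : ℝ => G (x + v.im * I)) (v.re - τ) := by
      intro τ
      simp only
      congr 1
      apply Complex.ext <;> simp
    simp only [h1]
    rw [intervalIntegral.integral_comp_sub_left (fun x : ℝ => G (x + v.im * I)) v.re]
    rw [slice_eq hsupp]
    · linarith
    · linarith
  -- the partial derivatives
  set μ := volume.restrict (Set.Ioc a b) with hμ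
  set K : ℂ → ℂ := fun v => prim' G M v I with hK
  have hKc : Continuous K := (continuous_prim' hG M).clm_apply continuous_const
  have hKb : ∀ v, ‖K v‖ ≤ C * |M - 0| := by
    intro v
    have h1 : ‖prim' G M v‖ ≤ C * |M - 0| :=
      intervalIntegral.norm_integral_le_of_norm_le_const fun τ _ => hC _
    calc ‖K v‖ ≤ ‖prim' G M v‖ * ‖I‖ := (prim' G M v).le_opNorm I
      _ ≤ _ := by simpa using h1
  set D1 : ℂ → ℂ → ℂ := fun v z => z.re * (G v - G (v - M)) + z.im * K v with hD1
  have hD1' : ∀ v z, prim' G M v z = D1 v z := fun v z => prim'_apply hG M v z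
  have hD1b : ∀ v z, ‖z‖ ≤ 1 → ‖D1 v z‖ ≤ (C₀ + C₀) + C * |M - 0| := by
    intro v z hz
    have h1 : |z.re| ≤ 1 := (Complex.abs_re_le_norm z).trans hz
    have h2 : |z.im| ≤ 1 := (Complex.abs_im_le_norm z).trans hz
    refine (norm_add_le _ _).trans ?_
    rw [norm_mul, norm_mul, Complex.norm_real, Complex.norm_real, Real.norm_eq_abs,
      Real.norm_eq_abs]
    have h3 : ‖G v - G (v - M)‖ ≤ C₀ + C₀ :=
      (norm_sub_le _ _).trans (add_le_add (hC₀ _) (hC₀ _))
    have h4 := hKb v
    have h5 : |z.re| * ‖G v - G (v - M)‖ ≤ 1 * (C₀ + C₀) :=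
      mul_le_mul h1 h3 (norm_nonneg _) zero_le_one
    have h6 : |z.im| * ‖K v‖ ≤ 1 * (C * |M - 0|) :=
      mul_le_mul h2 h4 (norm_nonneg _) zero_le_one
    linarith
  have hmeasD : ∀ (f g : ℝ × ℝ → ℂ), Measurable f → Measurable g →
      Measurable fun p => D1 (f p) (g p) := by
    intro f g hf hg
    simp only [hD1]
    have m1 : Measurable fun p => (((g p).re : ℝ) : ℂ) :=
      Complex.measurable_ofReal.comp (Complex.measurable_re.comp hg)
    have m2 : Measurable fun p => (((g p).im : ℝ) : ℂ) :=
      Complex.measurable_ofReal.comp (Complex.measurable_im.comp hg)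
    exact (m1.mul ((hGc.measurable.comp hf).sub (hGc.measurable.comp (hf.sub_const _)))).add
      (m2.mul (hKc.measurable.comp hf))
  set q : ℝ → ℂ := fun t => (((γ' t).im : ℝ) : ℂ) with hq
  have hqm : Measurable q := Complex.measurable_ofReal.comp (Complex.measurable_im.comp hγ')
  have hqb : ∀ t, ‖q t‖ ≤ 1 := by
    intro t
    rw [hq, Complex.norm_real]
    exact (Complex.abs_im_le_norm _).trans (hc.bdd t)
  -- the two products
  set P1 : ℝ × ℝ → ℂ := fun p => -D1 (γ p.1 - γ p.2) (γ' p.2) * q p.1 with hP1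
  set P2 : ℝ × ℝ → ℂ := fun p => D1 (γ p.1 - γ p.2) (γ' p.1) * q p.2 with hP2
  have hFm : Measurable fun p : ℝ × ℝ => γ p.1 - γ p.2 :=
    (by fun_prop : Continuous fun p : ℝ × ℝ => γ p.1 - γ p.2).measurable
  have hP1i : Integrable P1 (μ.prod μ) := by
    apply Integrable.of_bound (C := (C₀ + C₀) + C * |M - 0|)
    · exact (((hmeasD _ _ hFm (hγ'.comp measurable_snd)).neg).mul
        (hqm.comp measurable_fst)).aestronglyMeasurable
    · refine Eventually.of_forall fun p => ?_
      rw [hP1]; simp only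
      rw [norm_mul, norm_neg]
      have h1 := hD1b (γ p.1 - γ p.2) (γ' p.2) (hc.bdd _)
      have h2 := hqb p.1
      nlinarith [norm_nonneg (D1 (γ p.1 - γ p.2) (γ' p.2)), norm_nonneg (q p.1)]
  have hP2i : Integrable P2 (μ.prod μ) := by
    apply Integrable.of_bound (C := (C₀ + C₀) + C * |M - 0|)
    · exact ((hmeasD _ _ hFm (hγ'.comp measurable_fst)).mul
        (hqm.comp measurable_snd)).aestronglyMeasurable
    · refine Eventually.of_forall fun p => ?_
      rw [hP2]; simp only
      rw [norm_mul]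
      have h1 := hD1b (γ p.1 - γ p.2) (γ' p.1) (hc.bdd _)
      have h2 := hqb p.2
      nlinarith [norm_nonneg (D1 (γ p.1 - γ p.2) (γ' p.1)), norm_nonneg (q p.2)]
  have hpt : ∫ p : ℝ × ℝ, G (γ p.1 - γ p.2) *
        (((γ' p.2).re * (γ' p.1).im - (γ' p.2).im * (γ' p.1).re : ℝ) : ℂ) ∂(μ.prod μ) =
      ∫ p, (-P1 p - P2 p) ∂(μ.prod μ) := by
    apply integral_congr_ae
    have hae : ∀ᵐ p ∂(μ.prod μ), p ∈ Set.Ioc a b ×ˢ Set.Ioc a b := by
      rw [hμ, Measure.prod_restrict]
      exact ae_restrict_mem (measurableSet_Ioc.prod measurableSet_Ioc)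
    filter_upwards [hae] with p hp
    have h1 : |p.1 - p.2| ≤ b - a := by
      rw [abs_le]
      constructor <;> linarith [hp.1.1, hp.1.2, hp.2.1, hp.2.2]
    have h2 := hgood p.1 p.2 h1
    simp only [hP1, hP2, hD1, h2, hq]
    push_cast
    ring
  have hftc1 : ∀ s, ∫ t in a..b, -D1 (γ s - γ t) (γ' t) =
      prim G M (γ s - γ b) - prim G M (γ s - γ a) := by
    intro s
    apply integral_eq_of_hasDerivAt_off_countable (fun t => prim G M (γ s - γ t)) _ hN
    · have := continuous_prim hG M
      fun_prop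
    · intro t ht
      have h1 := hasFDerivAt_prim hG hC M (γ s - γ t)
      have h2 : HasDerivAt (fun t => γ s - γ t) (-γ' t) t := (hd t ht.2).const_sub _
      have h3 := HasFDerivAt.comp_hasDerivAt_of_eq t h1 h2 rfl
      rw [map_neg, hD1'] at h3
      exact h3
    · refine (intervalIntegrable_const (c := (C₀ + C₀) + C * |M - 0|)).mono_fun ?_ ?_
      · have hm := (hmeasD (fun p => γ s - γ p.1) (fun p => γ' p.1)
          ((by fun_prop : Continuous fun p : ℝ × ℝ => γ s - γ p.1).measurable)
          (hγ'.comp measurable_fst)).comp (measurable_id.prodMk measurable_id : Measurable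
            fun t : ℝ => (t, t))
        exact hm.neg.aestronglyMeasurable
      · refine Eventually.of_forall fun t => ?_
        change ‖-D1 (γ s - γ t) (γ' t)‖ ≤ _
        rw [norm_neg]
        exact (hD1b _ _ (hc.bdd t)).trans (le_abs_self _)
  have hftc2 : ∀ t, ∫ s in a..b, D1 (γ s - γ t) (γ' s) =
      prim G M (γ b - γ t) - prim G M (γ a - γ t) := by
    intro t
    apply integral_eq_of_hasDerivAt_off_countable (fun s => prim G M (γ s - γ t)) _ hN
    · have := continuous_prim hG M
      fun_prop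
    · intro s hs
      have h1 := hasFDerivAt_prim hG hC M (γ s - γ t)
      have h2 : HasDerivAt (fun s => γ s - γ t) (γ' s) s := (hd s hs.2).sub_const _
      have h3 := HasFDerivAt.comp_hasDerivAt_of_eq s h1 h2 rfl
      rw [hD1'] at h3
      exact h3
    · refine (intervalIntegrable_const (c := (C₀ + C₀) + C * |M - 0|)).mono_fun ?_ ?_
      · have hm := (hmeasD (fun p => γ p.1 - γ t) (fun p => γ' p.1)
          ((by fun_prop : Continuous fun p : ℝ × ℝ => γ p.1 - γ t).measurable)
          (hγ'.comp measurable_fst)).comp (measurable_id.prodMk measurable_id : Measurable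
            fun t : ℝ => (t, t))
        exact hm.aestronglyMeasurable
      · refine Eventually.of_forall fun s => ?_
        exact (hD1b _ _ (hc.bdd s)).trans (le_abs_self _)
  have hab' : a ≤ b := hab.le
  -- iterated integrals
  have hI1 : ∫ p, P1 p ∂(μ.prod μ) = - ∫ s in a..b, prim G M (γ s - γ a) * q s := by
    rw [integral_prod _ hP1i, intervalIntegral.integral_of_le hab', ← integral_neg]
    apply setIntegral_congr_fun measurableSet_Ioc
    intro s hs
    have h1 : ∫ t, P1 (s, t) ∂μ = (∫ t in a..b, -D1 (γ s - γ t) (γ' t)) * q s := by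
      rw [intervalIntegral.integral_of_le hab', ← integral_mul_const]
    simp only
    rw [h1, hftc1 s]
    have h2 : prim G M (γ s - γ b) = 0 := by
      have him : (γ s - γ b).im = (γ s).im - c := by rw [Complex.sub_im, ← hfeet]
      rcases le_or_gt (a + δ) s with h | h
      · rcases le_or_gt s (b - δ) with h' | h'
        · apply Hzero_im
          rw [him, abs_of_nonneg]
          · linarith [hη s ⟨h, h'⟩]
          · linarith [hη s ⟨h, h'⟩]
        · apply Hzero_re
          have h3 := (abs_le.1 (hre s b)).2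
          have h4 : |s - b| ≤ δ := by rw [abs_le]; constructor <;> linarith [hs.2]
          linarith
      · apply Hzero_re
        have h3 : (γ s - γ b).re = (γ s - γ a).re - φ := by simp [hφ]
        have h4 := (abs_le.1 (hre s a)).2
        have h5 : |s - a| ≤ δ := by rw [abs_le]; constructor <;> linarith [hs.1]
        rw [h3]
        linarith
    rw [h2]
    ring
  have hI2 : ∫ p, P2 p ∂(μ.prod μ) = ∫ t in a..b, prim G M (γ b - γ t) * q t := by
    rw [integral_prod_symm _ hP2i, intervalIntegral.integral_of_le hab']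
    apply setIntegral_congr_fun measurableSet_Ioc
    intro t ht
    have h1 : ∫ s, P2 (s, t) ∂μ = (∫ s in a..b, D1 (γ s - γ t) (γ' s)) * q t := by
      rw [intervalIntegral.integral_of_le hab', ← integral_mul_const]
    simp only
    rw [h1, hftc2 t]
    have h2 : prim G M (γ a - γ t) = 0 := by
      have him : (γ a - γ t).im = c - (γ t).im := by rw [Complex.sub_im]
      rcases le_or_gt (a + δ) t with h | h
      · rcases le_or_gt t (b - δ) with h' | h'
        · apply Hzero_im
          rw [him, abs_of_nonpos]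
          · linarith [hη t ⟨h, h'⟩]
          · linarith [hη t ⟨h, h'⟩]
        · apply Hzero_re
          have h3 : (γ a - γ t).re = (γ b - γ t).re - φ := by simp [hφ]
          have h4 := (abs_le.1 (hre b t)).2
          have h5 : |b - t| ≤ δ := by rw [abs_le]; constructor <;> linarith [ht.2]
          rw [h3]
          linarith
      · apply Hzero_re
        have h3 := (abs_le.1 (hre a t)).2
        have h4 : |a - t| ≤ δ := by rw [abs_le]; constructor <;> linarith [ht.1]
        linarith
    rw [h2, sub_zero]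
  -- the slice function and its primitive
  have hsc := slice_cont hGc hsupp
  set 𝓗 : ℝ → ℂ := fun y => ∫ w in (0:ℝ)..y, slice G w with h𝓗
  have h𝓗d : ∀ y, HasDerivAt 𝓗 (slice G y) y := fun y =>
    intervalIntegral.integral_hasDerivAt_right (hsc.intervalIntegrable _ _)
      hsc.aestronglyMeasurable.stronglyMeasurableAtFilter hsc.continuousAt
  have h𝓗c : Continuous 𝓗 := continuous_iff_continuousAt.2 fun y => (h𝓗d y).continuousAt
  have himd : ∀ t ∉ N, HasDerivAt (fun t => (γ t).im) ((γ' t).im) t := fun t ht =>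
    Complex.imCLM.hasFDerivAt.comp_hasDerivAt t (hd t ht)
  have hqii : ∀ (f : ℝ → ℂ), Continuous f → ∀ u v, IntervalIntegrable (fun t => f t * q t)
      volume u v := by
    intro f hf u v
    apply IntervalIntegrable.continuousOn_mul _ hf.continuousOn
    refine (intervalIntegrable_const (c := (1 : ℝ))).mono_fun (hqm.aestronglyMeasurable) ?_
    exact Eventually.of_forall fun t => by simpa using hqb t
  have hpc := continuous_prim hG M
  -- first integral
  have hJ1 : ∫ s in a..b, prim G M (γ s - γ a) * q s = - 𝓗 ((γ (b - δ)).im - c) := by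
    rw [← intervalIntegral.integral_add_adjacent_intervals (b := b - δ)
      (hqii _ (by fun_prop) _ _) (hqii _ (by fun_prop) _ _)]
    have h1 : ∫ s in a..(b - δ), prim G M (γ s - γ a) * q s = 0 := by
      rw [← intervalIntegral.integral_zero (a := a) (b := b - δ) (E := ℂ)]
      apply intervalIntegral.integral_congr
      intro s hs
      rw [Set.uIcc_of_le (by linarith)] at hs
      have h2 : prim G M (γ s - γ a) = 0 := by
        rcases le_or_gt (a + δ) s with h | h
        · apply Hzero_im
          have him : (γ s - γ a).im = (γ s).im - c := by rw [Complex.sub_im]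
          rw [him, abs_of_nonneg]
          · linarith [hη s ⟨h, hs.2⟩]
          · linarith [hη s ⟨h, hs.2⟩]
        · apply Hzero_re
          have h3 := (abs_le.1 (hre s a)).2
          have h4 : |s - a| ≤ δ := by rw [abs_le]; constructor <;> linarith [hs.1]
          linarith
      simp only
      rw [h2, zero_mul]
    have h2 : ∫ s in (b - δ)..b, prim G M (γ s - γ a) * q s =
        ∫ s in (b - δ)..b, slice G ((γ s).im - c) * q s := by
      apply intervalIntegral.integral_congr
      intro s hs
      rw [Set.uIcc_of_le (by linarith)] at hs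
      have h3 : (γ s - γ a).re = φ - (γ b - γ s).re := by simp [hφ]
      have h4 := (abs_le.1 (hre b s)).2
      have h5 : |b - s| ≤ δ := by rw [abs_le]; constructor <;> linarith [hs.1, hs.2]
      have h6 : |s - a| ≤ b - a := by rw [abs_le]; constructor <;> linarith [hs.1, hs.2]
      have h7 := (abs_le.1 (hre s a)).2
      simp only
      rw [Hslice _ (by rw [h3]; linarith) (by linarith), Complex.sub_im]
    have h3 : ∫ s in (b - δ)..b, slice G ((γ s).im - c) * q s =
        𝓗 ((γ b).im - c) - 𝓗 ((γ (b - δ)).im - c) := by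
      apply integral_eq_of_hasDerivAt_off_countable (fun s => 𝓗 ((γ s).im - c)) _ hN
      · have := Complex.continuous_im.comp hγ
        have h4 : Continuous fun s => (γ s).im := this
        fun_prop
      · intro s hs
        have h4 : HasDerivAt (fun s => (γ s).im - c) ((γ' s).im) s := (himd s hs.2).sub_const _
        have h5 := HasDerivAt.scomp_of_eq s (h𝓗d _) h4 rfl
        rw [Complex.real_smul, mul_comm] at h5
        exact h5
      · exact hqii _ (by
          have h4 : Continuous fun s => (γ s).im := Complex.continuous_im.comp hγ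
          fun_prop) _ _
    rw [h1, h2, h3, ← hfeet, sub_self, zero_add]
    simp [h𝓗]
  -- second integral
  have hJ2 : ∫ t in a..b, prim G M (γ b - γ t) * q t = - 𝓗 (c - (γ (a + δ)).im) := by
    rw [← intervalIntegral.integral_add_adjacent_intervals (b := a + δ)
      (hqii _ (by fun_prop) _ _) (hqii _ (by fun_prop) _ _)]
    have h1 : ∫ t in (a + δ)..b, prim G M (γ b - γ t) * q t = 0 := by
      rw [← intervalIntegral.integral_zero (a := a + δ) (b := b) (E := ℂ)]
      apply intervalIntegral.integral_congr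
      intro t ht
      rw [Set.uIcc_of_le (by linarith)] at ht
      have h2 : prim G M (γ b - γ t) = 0 := by
        rcases le_or_gt t (b - δ) with h | h
        · apply Hzero_im
          have him : (γ b - γ t).im = c - (γ t).im := by rw [Complex.sub_im, ← hfeet]
          rw [him, abs_of_nonpos]
          · linarith [hη t ⟨ht.1, h⟩]
          · linarith [hη t ⟨ht.1, h⟩]
        · apply Hzero_re
          have h3 := (abs_le.1 (hre b t)).2
          have h4 : |b - t| ≤ δ := by rw [abs_le]; constructor <;> linarith [ht.2]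
          linarith
      simp only
      rw [h2, zero_mul]
    have h2 : ∫ t in a..(a + δ), prim G M (γ b - γ t) * q t =
        ∫ t in a..(a + δ), slice G (c - (γ t).im) * q t := by
      apply intervalIntegral.integral_congr
      intro t ht
      rw [Set.uIcc_of_le (by linarith)] at ht
      have h3 : (γ b - γ t).re = φ - (γ t - γ a).re := by simp [hφ]
      have h4 := (abs_le.1 (hre t a)).2
      have h5 : |t - a| ≤ δ := by rw [abs_le]; constructor <;> linarith [ht.1, ht.2]
      have h6 : |b - t| ≤ b - a := by rw [abs_le]; constructor <;> linarith [ht.1, ht.2]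
      have h7 := (abs_le.1 (hre b t)).2
      simp only
      rw [Hslice _ (by rw [h3]; linarith) (by linarith), Complex.sub_im, ← hfeet]
    have h3 : ∫ t in a..(a + δ), slice G (c - (γ t).im) * q t =
        -𝓗 (c - (γ (a + δ)).im) - -𝓗 (c - (γ a).im) := by
      apply integral_eq_of_hasDerivAt_off_countable (fun t => -𝓗 (c - (γ t).im)) _ hN
      · have h4 : Continuous fun s => (γ s).im := Complex.continuous_im.comp hγ
        fun_prop
      · intro t ht
        have h4 : HasDerivAt (fun s => c - (γ s).im) (-(γ' t).im) t := (himd t ht.2).const_sub _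
        have h5 := (HasDerivAt.scomp_of_eq t (h𝓗d _) h4 rfl).neg
        rw [Complex.real_smul] at h5
        refine h5.congr_deriv ?_
        rw [hq]; push_cast; ring
      · exact hqii _ (by
          have h4 : Continuous fun s => (γ s).im := Complex.continuous_im.comp hγ
          fun_prop) _ _
    rw [h1, h2, h3, ← hcdef, sub_self, add_zero]
    simp [h𝓗]
  -- conclusion
  have hsub : ∫ p, (-P1 p - P2 p) ∂(μ.prod μ) =
      - (∫ p, P1 p ∂(μ.prod μ)) - ∫ p, P2 p ∂(μ.prod μ) := by
    have h1 : Integrable (fun p => -P1 p) (μ.prod μ) := hP1i.neg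
    rw [integral_sub h1 hP2i, integral_neg]
  rw [hpt, hsub, hI1, hI2, hJ1, hJ2, integral_slice hGc hsupp]
  set y₁ := (γ (b - δ)).im - c with hy₁
  set y₂ := (γ (a + δ)).im - c with hy₂
  have hy1 : ζ ≤ y₁ := by
    have := hη (b - δ) ⟨by linarith, le_rfl⟩
    linarith
  have hy2 : ζ ≤ y₂ := by
    have := hη (a + δ) ⟨le_rfl, by linarith⟩
    linarith
  have hfull : ∫ w in (-y₂)..y₁, slice G w = ∫ w : ℝ, slice G w := by
    apply intervalIntegral.integral_eq_integral_of_support_subset
    intro w hw
    have h1 : |w| < ζ := by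
      by_contra hcon
      exact hw (slice_zero hsupp (not_lt.1 hcon))
    rw [abs_lt] at h1
    constructor <;> linarith
  rw [← hfull, show c - (γ (a + δ)).im = -y₂ by rw [hy₂]; ring]
  have h1 : ∫ w in (-y₂)..y₁, slice G w = 𝓗 y₁ - 𝓗 (-y₂) := by
    rw [h𝓗]
    simp only
    rw [intervalIntegral.integral_interval_sub_left (hsc.intervalIntegrable _ _)
      (hsc.intervalIntegrable _ _)]
  rw [h1]
  ring

end local_lemma

end Pool.Agent.CurveSpec
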