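import Pool.Agent.Lib_MP_e9ccd1_an.Frame

set_option autoImplicit false

open MeasureTheory Complex Finset Filter Topology SchwartzMap
open scoped FourierTransform RealInnerProductSpace ComplexConjugate

namespace Pool.Agent.CurveSpec

/-- exponential coefficient on an interval -/
noncomputable def cab (a b : ℝ) (γ : ℝ → ℂ) (l : ℂ) (f : ℝ → ℂ) : ℂ :=
  ∫ t in a..b, f t * ex (-⟪l, γ t⟫)

lemma int_indicator {E : Type*} [NormedAddCommGroup E] [NormedSpace ℝ E]
    {a b L : ℝ} (h0 : 0 ≤ a) (hab : a ≤ b) (hb : b ≤ L) (F : ℝ → E) :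
    ∫ t in (0:ℝ)..L, (Set.Ioc a b).indicator F t = ∫ t in a..b, F t := by
  rw [intervalIntegral.integral_of_le (h0.trans (hab.trans hb)),
    intervalIntegral.integral_of_le hab, setIntegral_indicator measurableSet_Ioc,
    Set.inter_eq_self_of_subset_right (Set.Ioc_subset_Ioc h0 hb)]

lemma BM.indicator {f : ℝ → ℂ} (hf : BM f) (a b : ℝ) : BM ((Set.Ioc a b).indicator f) := by
  obtain ⟨C, hC⟩ := hf.bdd
  refine ⟨hf.meas.indicator measurableSet_Ioc, C, fun t => ?_⟩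
  exact (norm_indicator_le_norm_self _ _).trans (hC t)

namespace Fr

variable {ι : Type*} {L B : ℝ} {γ : ℝ → ℂ} {Λ : ι → ℂ}

lemma co_indicator {a b : ℝ} (h0 : 0 ≤ a) (hab : a ≤ b) (hb : b ≤ L) (f : ℝ → ℂ) (l : ℂ) :
    co L γ l ((Set.Ioc a b).indicator f) = cab a b γ l f := by
  unfold co cab
  rw [← int_indicator h0 hab hb]
  congr 1
  ext t
  by_cases ht : t ∈ Set.Ioc a b <;> simp [ht]

/-- polarised frame identity on an interval -/
lemma polar_ab (h : Fr L B γ Λ) {a b : ℝ} (h0 : 0 ≤ a) (hab : a ≤ b) (hb : b ≤ L)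
    {f g : ℝ → ℂ} (hf : BM f) (hg : BM g) :
    HasSum (fun i => cab a b γ (Λ i) f * conj (cab a b γ (Λ i) g))
      (B * ∫ t in a..b, f t * conj (g t)) := by
  have h1 := h.polar (hf.indicator a b) (hg.indicator a b)
  simp only [co_indicator h0 hab hb] at h1
  rw [← int_indicator h0 hab hb]
  have h2 : (fun t => (Set.Ioc a b).indicator f t * conj ((Set.Ioc a b).indicator g t)) =
      (Set.Ioc a b).indicator (fun t => f t * conj (g t)) := by
    ext t
    by_cases ht : t ∈ Set.Ioc a b <;> simp [ht]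
  rw [← h2]
  exact h1

lemma frame_ab (h : Fr L B γ Λ) {a b : ℝ} (h0 : 0 ≤ a) (hab : a ≤ b) (hb : b ≤ L)
    {f : ℝ → ℂ} (hf : BM f) :
    HasSum (fun i => ‖cab a b γ (Λ i) f‖ ^ 2) (B * ∫ t in a..b, ‖f t‖ ^ 2) := by
  have h1 := h.frame _ (hf.indicator a b)
  simp only [co_indicator h0 hab hb] at h1
  rw [← int_indicator h0 hab hb]
  have h2 : (fun t => ‖(Set.Ioc a b).indicator f t‖ ^ 2) =
      (Set.Ioc a b).indicator (fun t => ‖f t‖ ^ 2) := by
    ext t
    by_cases ht : t ∈ Set.Ioc a b <;> simp [ht]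
  rw [← h2]
  exact h1

end Fr

/-- modulation by the exponential `ξ` -/
noncomputable def md (γ : ℝ → ℂ) (ξ : ℂ) (f : ℝ → ℂ) : ℝ → ℂ := fun t => f t * ex ⟪ξ, γ t⟫

lemma cab_md {a b : ℝ} {γ : ℝ → ℂ} (l ξ : ℂ) (f : ℝ → ℂ) :
    cab a b γ l (md γ ξ f) = ∫ t in a..b, f t * ex ⟪ξ - l, γ t⟫ := by
  unfold cab md
  congr 1
  ext t
  rw [mul_assoc, ← ex_add, inner_sub_left]
  congr 2

section trace

variable {ι : Type*} {L B : ℝ} {γ : ℝ → ℂ} {Λ : ι → ℂ}

/-- Fourier inversion -/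
lemma inversion (Ψ : 𝓢(ℂ, ℂ)) (v : ℂ) :
    ∫ ξ : ℂ, (𝓕 Ψ) ξ * ex ⟪ξ, v⟫ = Ψ v := by
  have h1 : (𝓕⁻ (𝓕 Ψ)) v = Ψ v := by rw [FourierTransform.fourierInv_fourier_eq]
  rw [SchwartzMap.fourierInv_coe, Real.fourierInv_eq'] at h1
  rw [← h1]
  congr 1
  ext ξ
  rw [smul_eq_mul, mul_comm]
  rfl

lemma ex_md_prod (x y : ℝ) : ex x * conj (ex y) = ex (x - y) := by
  rw [conj_ex, ← ex_add, sub_eq_add_neg]

lemma double_eq {a b : ℝ} (hab : a ≤ b) (l ξ : ℂ) (f g : ℝ → ℂ) :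
    cab a b γ l (md γ ξ f) * conj (cab a b γ l (md γ ξ g)) =
      ∫ p : ℝ × ℝ, f p.1 * conj (g p.2) * ex ⟪ξ - l, γ p.1 - γ p.2⟫
        ∂((volume.restrict (Set.Ioc a b)).prod (volume.restrict (Set.Ioc a b))) := by
  rw [cab_md, cab_md, intervalIntegral.integral_of_le hab, intervalIntegral.integral_of_le hab,
    ← integral_conj, ← integral_prod_mul]
  congr 1
  ext p
  rw [map_mul, inner_sub_right, ← ex_md_prod]
  ring

/-- the term of the trace formula -/
lemma term_eq (hγ : Continuous γ) {a b : ℝ} (hab : a ≤ b) (l : ℂ) {f g : ℝ → ℂ} (hf : BM f)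
    (hg : BM g) (Ψ : 𝓢(ℂ, ℂ)) :
    ∫ ξ : ℂ, (𝓕 Ψ) ξ * (cab a b γ l (md γ ξ f) * conj (cab a b γ l (md γ ξ g))) =
      ∫ p : ℝ × ℝ, f p.1 * conj (g p.2) * Ψ (γ p.1 - γ p.2) * ex (-⟪l, γ p.1 - γ p.2⟫)
        ∂((volume.restrict (Set.Ioc a b)).prod (volume.restrict (Set.Ioc a b))) := by
  set μ := (volume.restrict (Set.Ioc a b)).prod (volume.restrict (Set.Ioc a b)) with hμ
  simp only [double_eq hab]
  simp only [← integral_const_mul]
  rw [integral_integral_swap]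
  · congr 1
    ext p
    have h1 : ∀ ξ : ℂ, (𝓕 Ψ) ξ * (f p.1 * conj (g p.2) * ex ⟪ξ - l, γ p.1 - γ p.2⟫) =
        (f p.1 * conj (g p.2) * ex (-⟪l, γ p.1 - γ p.2⟫)) *
          ((𝓕 Ψ) ξ * ex ⟪ξ, γ p.1 - γ p.2⟫) := by
      intro ξ
      rw [inner_sub_left, sub_eq_add_neg, ex_add]; ring
    simp only [h1]
    rw [integral_const_mul, inversion]
    ring
  · obtain ⟨C, hC⟩ := hf.bdd
    obtain ⟨D, hD⟩ := hg.bdd
    have hC0 : 0 ≤ C := (norm_nonneg _).trans (hC 0)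
    have hint : Integrable (fun q : ℂ × (ℝ × ℝ) => (𝓕 Ψ) q.1 * ((C * D : ℝ) : ℂ))
        (volume.prod μ) := by
      exact (SchwartzMap.integrable (𝓕 Ψ)).mul_prod (integrable_const (((C * D : ℝ) : ℂ)))
    refine hint.mono ?_ ?_
    · apply Measurable.aestronglyMeasurable
      have m1 : Measurable fun q : ℂ × (ℝ × ℝ) => (𝓕 Ψ) q.1 :=
        (SchwartzMap.continuous (𝓕 Ψ)).measurable.comp measurable_fst
      have m2 : Measurable fun q : ℂ × (ℝ × ℝ) => f q.2.1 := hf.meas.comp (by fun_prop)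
      have m3 : Measurable fun q : ℂ × (ℝ × ℝ) => conj (g q.2.2) :=
        Complex.continuous_conj.measurable.comp (hg.meas.comp (by fun_prop))
      have m4 : Measurable fun q : ℂ × (ℝ × ℝ) => ex ⟪q.1 - l, γ q.2.1 - γ q.2.2⟫ :=
        (by fun_prop : Continuous fun q : ℂ × (ℝ × ℝ) =>
          ex ⟪q.1 - l, γ q.2.1 - γ q.2.2⟫).measurable
      exact m1.mul ((m2.mul m3).mul m4)
    · refine Eventually.of_forall fun q => ?_
      simp only [Function.uncurry]
      rw [norm_mul, norm_mul, norm_mul, norm_mul, norm_ex, mul_one, Complex.norm_conj,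
        Complex.norm_real]
      gcongr
      rw [Real.norm_eq_abs]
      exact (mul_le_mul (hC _) (hD _) (norm_nonneg _) hC0).trans (le_abs_self _)

lemma md_bm (hγ : Continuous γ) {f : ℝ → ℂ} (hf : BM f) (ξ : ℂ) : BM (md γ ξ f) := by
  apply hf.mul
  apply BM.ex_comp
  exact (by fun_prop : Continuous fun t => ⟪ξ, γ t⟫).measurable

/-- the trace formula -/
theorem trace_formula [Countable ι] (h : Fr L B γ Λ) {a b : ℝ} (h0 : 0 ≤ a) (hab : a ≤ b)
    (hb : b ≤ L) {f g : ℝ → ℂ} (hf : BM f) (hg : BM g) (Ψ : 𝓢(ℂ, ℂ)) :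
    HasSum (fun i => ∫ p : ℝ × ℝ, f p.1 * conj (g p.2) * Ψ (γ p.1 - γ p.2) *
        ex (-⟪Λ i, γ p.1 - γ p.2⟫)
        ∂((volume.restrict (Set.Ioc a b)).prod (volume.restrict (Set.Ioc a b))))
      (B * (∫ t in a..b, f t * conj (g t)) * Ψ 0) := by
  have hγ := h.cont
  -- the summands as integrals over frequency space
  set F : ι → ℂ → ℂ := fun i ξ =>
    (𝓕 Ψ) ξ * (cab a b γ (Λ i) (md γ ξ f) * conj (cab a b γ (Λ i) (md γ ξ g))) with hF
  have hcont : ∀ (l : ℂ) {f : ℝ → ℂ}, BM f → Continuous fun ξ => cab a b γ l (md γ ξ f) := by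
    intro l f hf
    simp only [cab_md]
    obtain ⟨C, hC⟩ := hf.bdd
    apply intervalIntegral.continuous_of_dominated_interval (bound := fun _ => C)
    · intro ξ
      exact (hf.mul (BM.ex_comp (by fun_prop : Continuous fun t =>
        ⟪ξ - l, γ t⟫).measurable)).meas.aestronglyMeasurable
    · intro ξ
      refine Eventually.of_forall fun t _ => ?_
      rw [norm_mul, norm_ex, mul_one]; exact hC t
    · exact intervalIntegrable_const
    · refine Eventually.of_forall fun t _ => ?_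
      fun_prop
  obtain ⟨C, hC⟩ := hf.bdd
  obtain ⟨D, hD⟩ := hg.bdd
  have hC0 : 0 ≤ C := (norm_nonneg _).trans (hC 0)
  have hD0 : 0 ≤ D := (norm_nonneg _).trans (hD 0)
  have hcabbd : ∀ (l : ℂ) {f : ℝ → ℂ} {C : ℝ}, (∀ t, ‖f t‖ ≤ C) → ∀ ξ,
      ‖cab a b γ l (md γ ξ f)‖ ≤ C * |b - a| := by
    intro l f C hC ξ
    rw [cab_md]
    apply intervalIntegral.norm_integral_le_of_norm_le_const
    intro t _
    rw [norm_mul, norm_ex, mul_one]; exact hC t
  have hFint : ∀ i, Integrable (F i) := by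
    intro i
    have hbd : ∀ ξ, ‖cab a b γ (Λ i) (md γ ξ f) * conj (cab a b γ (Λ i) (md γ ξ g))‖ ≤
        (C * |b - a|) * (D * |b - a|) := by
      intro ξ
      rw [norm_mul, Complex.norm_conj]
      exact mul_le_mul (hcabbd _ hC _) (hcabbd _ hD _) (norm_nonneg _) (by positivity)
    refine (SchwartzMap.integrable (𝓕 Ψ)).mul_bdd ?_ (Eventually.of_forall hbd)
    have c1 := hcont (Λ i) hf
    have c2 := hcont (Λ i) hg
    exact (by fun_prop : Continuous fun ξ => cab a b γ (Λ i) (md γ ξ f) *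
      conj (cab a b γ (Λ i) (md γ ξ g))).aestronglyMeasurable
  -- uniform bound of the sums
  set Q : ℝ := B * ((∫ t in a..b, ‖f t‖ ^ 2) + ∫ t in a..b, ‖g t‖ ^ 2) with hQ
  have hnormmd : ∀ (f : ℝ → ℂ) ξ t, ‖md γ ξ f t‖ = ‖f t‖ := by
    intro f ξ t; rw [md, norm_mul, norm_ex, mul_one]
  have hsumle : ∀ ξ (s : Finset ι), ∑ i ∈ s, ‖cab a b γ (Λ i) (md γ ξ f) *
      conj (cab a b γ (Λ i) (md γ ξ g))‖ ≤ Q := by
    intro ξ s
    have h1 := h.frame_ab h0 hab hb (md_bm hγ hf ξ)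
    have h2 := h.frame_ab h0 hab hb (md_bm hγ hg ξ)
    simp only [hnormmd] at h1 h2
    have h3 := sum_le_hasSum s (fun i _ => by positivity) h1
    have h4 := sum_le_hasSum s (fun i _ => by positivity) h2
    have h5 : ∀ i ∈ s, ‖cab a b γ (Λ i) (md γ ξ f) * conj (cab a b γ (Λ i) (md γ ξ g))‖ ≤
        ‖cab a b γ (Λ i) (md γ ξ f)‖ ^ 2 + ‖cab a b γ (Λ i) (md γ ξ g)‖ ^ 2 := by
      intro i _
      rw [norm_mul, Complex.norm_conj]
      nlinarith [sq_nonneg (‖cab a b γ (Λ i) (md γ ξ f)‖ - ‖cab a b γ (Λ i) (md γ ξ g)‖),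
        norm_nonneg (cab a b γ (Λ i) (md γ ξ f)), norm_nonneg (cab a b γ (Λ i) (md γ ξ g)),
        sq_nonneg (‖cab a b γ (Λ i) (md γ ξ f)‖), sq_nonneg (‖cab a b γ (Λ i) (md γ ξ g)‖)]
    refine (Finset.sum_le_sum h5).trans ?_
    rw [Finset.sum_add_distrib, hQ, mul_add]
    exact add_le_add h3 h4
  have hsummable : Summable fun i => ∫ ξ, ‖F i ξ‖ := by
    apply summable_of_sum_le (c := ∫ ξ, ‖(𝓕 Ψ) ξ‖ * Q)
    · intro i; exact integral_nonneg fun ξ => norm_nonneg _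
    · intro s
      rw [← integral_finsetSum _ (fun i _ => (hFint i).norm)]
      apply integral_mono_of_nonneg
      · exact Eventually.of_forall fun ξ => Finset.sum_nonneg fun i _ => norm_nonneg _
      · exact (SchwartzMap.integrable (𝓕 Ψ)).norm.mul_const _
      · refine Eventually.of_forall fun ξ => ?_
        simp only [hF, norm_mul (𝓕 Ψ ξ)]
        rw [← Finset.mul_sum]
        exact mul_le_mul_of_nonneg_left (hsumle ξ s) (norm_nonneg _)
  have hmain := hasSum_integral_of_summable_integral_norm hFint hsummable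
  have hterm : ∀ i, ∫ ξ, F i ξ = ∫ p : ℝ × ℝ, f p.1 * conj (g p.2) * Ψ (γ p.1 - γ p.2) *
        ex (-⟪Λ i, γ p.1 - γ p.2⟫)
        ∂((volume.restrict (Set.Ioc a b)).prod (volume.restrict (Set.Ioc a b))) := by
    intro i
    exact term_eq hγ hab (Λ i) hf hg Ψ
  simp only [hterm] at hmain
  have hval : ∫ ξ, (∑' i, F i ξ) = B * (∫ t in a..b, f t * conj (g t)) * Ψ 0 := by
    have h1 : ∀ ξ, ∑' i, F i ξ = (B * (∫ t in a..b, f t * conj (g t))) * (𝓕 Ψ) ξ := by
      intro ξ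
      have h2 := h.polar_ab h0 hab hb (md_bm hγ hf ξ) (md_bm hγ hg ξ)
      have h3 : ∀ t, md γ ξ f t * conj (md γ ξ g t) = f t * conj (g t) := by
        intro t
        rw [md, md, map_mul]
        have : ex ⟪ξ, γ t⟫ * conj (ex ⟪ξ, γ t⟫) = 1 := by rw [ex_md_prod, sub_self, ex_zero]
        linear_combination (f t * conj (g t)) * this
      simp only [h3] at h2
      have h4 := (h2.mul_left ((𝓕 Ψ) ξ)).tsum_eq
      exact h4.trans (mul_comm _ _)
    simp only [h1]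
    rw [integral_const_mul]
    congr 1
    have := inversion Ψ 0
    simpa using this
  rw [hval] at hmain
  exact hmain

end trace

end Pool.Agent.CurveSpec
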