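import Pool.Agent.Lib_MP_e9ccd1_an.Contra
import Pool.Agent.Lib_MP_e9ccd1_an.Defs

set_option autoImplicit false

open MeasureTheory Complex Finset Filter Topology
open scoped RealInnerProductSpace ComplexConjugate ContDiff ENNReal

namespace Pool.Agent.CurveSpec

section pieces

lemma find_piece {L : ℝ} {n : ℕ} {τ : ℕ → ℝ} (h0 : τ 0 = 0) (hn : τ n = L) {t : ℝ} (ht : 0 < t)
    (htL : t < L) (hne : ∀ k ≤ n, t ≠ τ k) : ∃ k < n, τ k < t ∧ t < τ (k + 1) := by
  classical
  have hex : ∃ k : ℕ, k ≤ n ∧ t < τ k := ⟨n, le_rfl, by rw [hn]; exact htL⟩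
  have h1 := Nat.find_spec hex
  have hmin := fun m => Nat.find_min (m := m) hex
  set k := Nat.find hex with hk
  have hk0 : k ≠ 0 := by
    intro h; rw [h, h0] at h1; linarith [h1.2]
  obtain ⟨m, hm⟩ := Nat.exists_eq_succ_of_ne_zero hk0
  rw [Nat.succ_eq_add_one] at hm
  refine ⟨m, by omega, ?_, by rw [← hm]; exact h1.2⟩
  have h2 := hmin m (by omega)
  have h3 : ¬ t < τ m := fun h => h2 ⟨by omega, h⟩
  exact lt_of_le_of_ne (not_lt.1 h3) (hne m (by omega)).symm

end pieces

variable {E : Type*} [NormedAddCommGroup E] [InnerProductSpace ℝ E] [FiniteDimensional ℝ E]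
  [MeasurableSpace E] [BorelSpace E]

/-- clamping to the parameter interval -/
noncomputable def clamp (L t : ℝ) : ℝ := max 0 (min L t)

lemma clamp_mem {L : ℝ} (hL : 0 ≤ L) (t : ℝ) : clamp L t ∈ Set.Icc 0 L :=
  ⟨le_max_left _ _, max_le hL (min_le_left _ _)⟩

lemma clamp_eq {L t : ℝ} (ht : t ∈ Set.Icc 0 L) : clamp L t = t := by
  unfold clamp; rw [min_eq_right ht.2, max_eq_right ht.1]

lemma clamp_cont (L : ℝ) : Continuous (clamp L) := by
  unfold clamp; fun_prop

/-- the transferred curve is an admissible plane curve -/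
lemma crv_of_closed {L : ℝ} {γ : ℝ → E} (h : ClosedCurve L γ) (p : E) (T : E →L[ℝ] ℂ)
    (hT : ‖T‖ ≤ 1) :
    ∃ γ' : ℝ → ℂ, Crv (fun t => T (γ (clamp L t) - p)) γ' := by
  obtain ⟨n, τ, hτ0, hτn, hτ⟩ := h.pieces
  set γt : ℝ → ℂ := fun t => T (γ (clamp L t) - p) with hγt
  have hLpos := h.pos
  have hcontγ : Continuous (fun t => γ (clamp L t)) := by
    have := h.cont
    exact this.comp_continuous (clamp_cont L) (clamp_mem hLpos.le)
  set N : Set ℝ := τ '' (Set.Iic n) with hN
  have hNfin : N.Finite := (Set.finite_Iic n).image τ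
  have hder : ∀ t ∉ N, DifferentiableAt ℝ γt t ∧ ‖deriv γt t‖ ≤ 1 := by
    intro t ht
    have hne : ∀ k ≤ n, t ≠ τ k := fun k hk h => ht ⟨k, hk, h.symm⟩
    have ht0 : t ≠ 0 := by rw [← hτ0]; exact hne 0 (Nat.zero_le _)
    have htL : t ≠ L := by rw [← hτn]; exact hne n le_rfl
    rcases lt_or_gt_of_ne ht0 with hlt | hgt'
    · have he : γt =ᶠ[𝓝 t] fun _ => γt t := by
        filter_upwards [Iio_mem_nhds hlt] with s hs
        have hs' : s < 0 := hs
        rw [hγt]
        dsimp only
        have e1 : clamp L s = clamp L t := by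
          unfold clamp
          rw [max_eq_left ((min_le_right _ _).trans hs'.le),
            max_eq_left ((min_le_right _ _).trans hlt.le)]
        rw [e1]
      have h1 : HasDerivAt γt 0 t := (hasDerivAt_const t (γt t)).congr_of_eventuallyEq he
      exact ⟨h1.differentiableAt, by rw [h1.deriv]; simp⟩
    · rcases lt_or_gt_of_ne htL with hlt | hgt''
      · obtain ⟨k, hkn, hk1, hk2⟩ := find_piece hτ0 hτn hgt' hlt hne
        obtain ⟨_, hC, hu⟩ := hτ k hkn
        have hmem : Set.Icc (τ k) (τ (k + 1)) ∈ 𝓝 t := Icc_mem_nhds hk1 hk2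
        have hd : DifferentiableAt ℝ γ t :=
          (hC.differentiableOn (by norm_num) t ⟨hk1.le, hk2.le⟩).differentiableAt hmem
        have hn1 := hu t ⟨hk1.le, hk2.le⟩
        rw [derivWithin_of_mem_nhds hmem] at hn1
        have he : γt =ᶠ[𝓝 t] fun s => T (γ s - p) := by
          filter_upwards [Icc_mem_nhds hgt' hlt] with s hs
          rw [hγt]
          dsimp only
          rw [clamp_eq hs]
        have h1 : HasDerivAt (fun s => T (γ s - p)) (T (deriv γ t)) t :=
          T.hasFDerivAt.comp_hasDerivAt t (hd.hasDerivAt.sub_const p)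
        have h2 : HasDerivAt γt (T (deriv γ t)) t := h1.congr_of_eventuallyEq he
        refine ⟨h2.differentiableAt, ?_⟩
        rw [h2.deriv]
        refine (T.le_opNorm _).trans ?_
        rw [hn1, mul_one]
        exact hT
      · have he : γt =ᶠ[𝓝 t] fun _ => γt t := by
          filter_upwards [Ioi_mem_nhds hgt''] with s hs
          have hs' : L < s := hs
          rw [hγt]
          dsimp only
          have e1 : clamp L s = clamp L t := by
            unfold clamp
            rw [min_eq_left hs'.le, min_eq_left hgt''.le]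
          rw [e1]
        have h1 : HasDerivAt γt 0 t := (hasDerivAt_const t (γt t)).congr_of_eventuallyEq he
        exact ⟨h1.differentiableAt, by rw [h1.deriv]; simp⟩
  refine ⟨Nᶜ.indicator (deriv γt), ?_, ?_, ?_, ⟨N, hNfin.countable, ?_⟩⟩
  · exact T.continuous.comp (hcontγ.sub continuous_const)
  · exact (measurable_deriv γt).indicator hNfin.measurableSet.compl
  · intro t
    by_cases ht : t ∈ N
    · rw [Set.indicator_of_notMem (by simpa using ht)]; simp
    · rw [Set.indicator_of_mem (show t ∈ Nᶜ from ht)]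
      exact (hder t ht).2
  · intro t ht
    rw [Set.indicator_of_mem (show t ∈ Nᶜ from ht)]
    exact (hder t ht).1.hasDerivAt

lemma integral_arcMeasure {L : ℝ} {γ : ℝ → E} (h : ClosedCurve L γ) {F : Type*}
    [NormedAddCommGroup F] [NormedSpace ℝ F] {f : E → F} (hf : StronglyMeasurable f) :
    ∫ x, f x ∂(arcMeasure L γ) = L⁻¹ • ∫ t in (0:ℝ)..L, f (γ t) := by
  have hLpos := h.pos
  have hae : AEMeasurable γ (volume.restrict (Set.Icc 0 L)) :=
    h.cont.aemeasurable measurableSet_Icc
  unfold arcMeasure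
  rw [integral_smul_measure, integral_map hae hf.aestronglyMeasurable,
    intervalIntegral.integral_of_le hLpos.le, integral_Icc_eq_integral_Ioc]
  congr 1
  rw [ENNReal.toReal_inv, ENNReal.toReal_ofReal hLpos.le]

/-- transfer of functions -/
lemma exists_lift {L : ℝ} {γ : ℝ → E} (h : ClosedCurve L γ) {f : ℝ → ℂ} (hf : BM f) :
    ∃ F : E → ℂ, Measurable F ∧ (∃ C, ∀ x, ‖F x‖ ≤ C) ∧
      ∃ N : Set ℝ, N.Finite ∧ ∀ t ∈ Set.Icc 0 L, t ∉ N → F (γ t) = f t := by
  set S : Set ℝ := {t | t ∈ Set.Ico 0 L ∧ ∃ s ∈ Set.Ico 0 L, s ≠ t ∧ γ t = γ s} ∪ {L} with hS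
  have hSfin : S.Finite := h.selfint.union (Set.finite_singleton L)
  set G : Set ℝ := Set.Icc 0 L \ S with hG
  have hGm : MeasurableSet G := measurableSet_Icc.diff hSfin.measurableSet
  have hco : ContinuousOn γ G := h.cont.mono Set.sdiff_subset
  have hinj : Set.InjOn γ G := by
    intro s hs t ht hst
    by_contra hne
    have hsL : s ≠ L := fun h => hs.2 (Or.inr h)
    have htL : t ≠ L := fun h => ht.2 (Or.inr h)
    apply ht.2
    exact Or.inl ⟨⟨ht.1.1, lt_of_le_of_ne ht.1.2 htL⟩, s,
      ⟨hs.1.1, lt_of_le_of_ne hs.1.2 hsL⟩, hne, hst.symm⟩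
  have hemb := hco.measurableEmbedding hGm hinj
  obtain ⟨C, hC⟩ := hf.bdd
  refine ⟨Function.extend (G.domRestrict γ) (fun t : G => f t) (fun _ => 0),
    hemb.measurable_extend (hf.meas.comp measurable_subtype_coe) measurable_const,
    ⟨C, fun x => ?_⟩, S, hSfin, fun t ht htS => ?_⟩
  · by_cases hx : ∃ t : G, G.domRestrict γ t = x
    · obtain ⟨t, rfl⟩ := hx
      rw [hemb.injective.extend_apply]
      exact hC t
    · rw [Function.extend_apply' _ _ _ hx, norm_zero]
      exact (norm_nonneg _).trans (hC 0)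
  · exact hemb.injective.extend_apply (fun t : G => f t) (fun _ => 0) ⟨t, ht, htS⟩

/-- a tight frame on the arc-length measure of a closed curve contained in a plane produces a tight
frame in the parametrised setting -/
theorem not_tight {L : ℝ} {γ : ℝ → E} (h : ClosedCurve L γ) (P : AffineSubspace ℝ E)
    (hP : Module.finrank ℝ P.direction = 2) (hγP : ∀ t ∈ Set.Icc 0 L, γ t ∈ P) :
    ¬ TightFrameSpectral (arcMeasure L γ) := by
  rintro ⟨Λ, hΛ, A, hA, hfr⟩
  have hLpos := h.pos
  have hL0 : (0:ℝ) ∈ Set.Icc 0 L := ⟨le_rfl, hLpos.le⟩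
  set p : E := γ 0 with hp
  set V := P.direction with hV
  -- an isometry of the direction with the complex plane
  have b : OrthonormalBasis (Fin 2) ℝ V := (stdOrthonormalBasis ℝ V).reindex (finCongr hP)
  set J : V ≃ₗᵢ[ℝ] ℂ := (Complex.isometryOfOrthonormal b).symm with hJ
  set T : E →L[ℝ] ℂ := (J.toContinuousLinearEquiv : V →L[ℝ] ℂ).comp V.orthogonalProjectionOnto
    with hT
  have hTv : ∀ x : E, T x = J (V.orthogonalProjectionOnto x) := fun x => rfl
  have hTnorm : ‖T‖ ≤ 1 := by
    refine ContinuousLinearMap.opNorm_le_bound _ zero_le_one fun x => ?_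
    rw [hTv, J.norm_map, one_mul]
    exact V.norm_orthogonalProjectionOnto_apply_le x
  have hmem : ∀ t ∈ Set.Icc 0 L, γ t - p ∈ V := by
    intro t ht
    have := AffineSubspace.vsub_mem_direction (hγP t ht) (hγP 0 hL0)
    simpa using this
  have hinner : ∀ l : E, ∀ t ∈ Set.Icc 0 L, ⟪T l, T (γ t - p)⟫ = ⟪l, γ t - p⟫ := by
    intro l t ht
    rw [hTv, hTv, J.inner_map_map]
    have h1 : V.orthogonalProjectionOnto (γ t - p) = ⟨γ t - p, hmem t ht⟩ :=
      Submodule.orthogonalProjectionOnto_mem_subspace_eq_self (K := V) ⟨γ t - p, hmem t ht⟩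
    rw [h1]
    exact Submodule.inner_orthogonalProjectionOnto_eq_of_mem_right (K := V) ⟨γ t - p, hmem t ht⟩ l
  have hTn : ∀ t ∈ Set.Icc 0 L, ∀ s ∈ Set.Icc 0 L, T (γ t - p) = T (γ s - p) → γ t = γ s := by
    intro t ht s hs hts
    rw [hTv, hTv] at hts
    have h1 := J.injective hts
    have h2 : V.orthogonalProjectionOnto (γ t - p) = ⟨γ t - p, hmem t ht⟩ :=
      Submodule.orthogonalProjectionOnto_mem_subspace_eq_self (K := V) ⟨γ t - p, hmem t ht⟩
    have h3 : V.orthogonalProjectionOnto (γ s - p) = ⟨γ s - p, hmem s hs⟩ :=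
      Submodule.orthogonalProjectionOnto_mem_subspace_eq_self (K := V) ⟨γ s - p, hmem s hs⟩
    rw [h2, h3] at h1
    have h4 := congrArg (fun v : V => (v : E)) h1
    simpa using h4
  obtain ⟨γ', hcrv⟩ := crv_of_closed h p T hTnorm
  set γt : ℝ → ℂ := fun t => T (γ (clamp L t) - p) with hγt
  have hγte : ∀ t ∈ Set.Icc 0 L, γt t = T (γ t - p) := by
    intro t ht; rw [hγt]; dsimp only; rw [clamp_eq ht]
  have : Countable Λ := hΛ.to_subtype
  set Λt : Λ → ℂ := fun l => T (l : E) with hΛt
  have hF : Fr L (A * L) γt Λt := by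
    refine ⟨hLpos, mul_pos hA hLpos, hcrv.cont, fun f hf => ?_⟩
    obtain ⟨F, hFm, ⟨C, hC⟩, N, hN, hFf⟩ := exists_lift h hf
    have : IsFiniteMeasure (arcMeasure L γ) := by
      unfold arcMeasure
      have : IsFiniteMeasure (Measure.map γ (volume.restrict (Set.Icc 0 L))) :=
        Measure.isFiniteMeasure_map _ _
      exact Measure.smul_finite _ (ENNReal.inv_ne_top.2 (by simpa using hLpos))
    have hLp : MemLp F 2 (arcMeasure L γ) :=
      MemLp.of_bound hFm.aestronglyMeasurable C (Eventually.of_forall hC)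
    have h1 := hfr F hLp
    have hae : ∀ᵐ t, t ∈ Set.Ioc 0 L → t ∉ N := by
      have : ∀ᵐ t : ℝ, t ∉ N := by
        rw [ae_iff]; simp only [not_not]
        exact hN.measure_zero _
      filter_upwards [this] with t ht _ using ht
    have h2 : ∫ x, ‖F x‖ ^ 2 ∂(arcMeasure L γ) = L⁻¹ * ∫ t in (0:ℝ)..L, ‖f t‖ ^ 2 := by
      rw [integral_arcMeasure h (hFm.norm.pow_const 2).stronglyMeasurable, smul_eq_mul]
      congr 1
      apply intervalIntegral.integral_congr_ae
      rw [Set.uIoc_of_le hLpos.le]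
      filter_upwards [hae] with t ht htI
      rw [hFf t (Set.Ioc_subset_Icc_self htI) (ht htI)]
    have h3 : ∀ l : Λ, ‖∫ x, F x * expo (-(l : E)) x ∂(arcMeasure L γ)‖ ^ 2 =
        (L⁻¹) ^ 2 * ‖co L γt (Λt l) f‖ ^ 2 := by
      intro l
      have hexpo : Measurable (fun x : E => expo (-(l : E)) x) := by
        unfold expo
        exact (by fun_prop : Continuous fun x : E =>
          Complex.exp (2 * Real.pi * Complex.I * ((inner ℝ (-(l : E)) x : ℝ) : ℂ))).measurable
      have hprod : StronglyMeasurable (fun x : E => F x * expo (-(l : E)) x) :=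
        (hFm.mul hexpo).stronglyMeasurable
      rw [integral_arcMeasure h hprod]
      have h4 : ∫ t in (0:ℝ)..L, F (γ t) * expo (-(l : E)) (γ t) =
          ex (-⟪(l : E), p⟫) * co L γt (Λt l) f := by
        unfold co
        rw [← intervalIntegral.integral_const_mul]
        apply intervalIntegral.integral_congr_ae
        rw [Set.uIoc_of_le hLpos.le]
        filter_upwards [hae] with t ht htI
        have htI' := Set.Ioc_subset_Icc_self htI
        rw [hFf t htI' (ht htI), hγte t htI', hΛt]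
        dsimp only
        rw [hinner _ t htI']
        have h5 : expo (-(l : E)) (γ t) = ex (-⟪(l : E), p⟫) * ex (-⟪(l : E), γ t - p⟫) := by
          rw [← ex_add, inner_sub_right]
          unfold expo ex
          congr 1
          rw [inner_neg_left]
          push_cast
          ring
        rw [h5]
        ring
      rw [h4, norm_smul, norm_mul, norm_ex, one_mul, Real.norm_of_nonneg (by positivity), mul_pow]
    simp only [h3] at h1
    rw [h2] at h1
    have h6 := h1.mul_left (L ^ 2)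
    have e1 : ∀ l : Λ, L ^ 2 * ((L⁻¹) ^ 2 * ‖co L γt (Λt l) f‖ ^ 2) =
        ‖co L γt (Λt l) f‖ ^ 2 := by
      intro l; field_simp
    have e2 : L ^ 2 * (A * (L⁻¹ * ∫ t in (0:ℝ)..L, ‖f t‖ ^ 2)) =
        A * L * ∫ t in (0:ℝ)..L, ‖f t‖ ^ 2 := by field_simp
    rw [e2] at h6
    simpa only [e1] using h6
  refine no_frame hF hcrv ?_ ?_
  · rw [hγte 0 hL0, hγte L ⟨hLpos.le, le_rfl⟩, h.closed]
  · refine h.selfint.subset ?_
    rintro t ⟨ht, s, hs, hst, hts⟩
    refine ⟨ht, s, hs, hst, ?_⟩
    have ht' := Set.Ico_subset_Icc_self ht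
    have hs' := Set.Ico_subset_Icc_self hs
    rw [hγte t ht', hγte s hs'] at hts
    exact hTn t ht' s hs' hts

end Pool.Agent.CurveSpec
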