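import Pool.Agent.Lib_MP_e9ccd1_an.Trace
import Pool.Agent.Lib_MP_e9ccd1_an.Stokes

set_option autoImplicit false

open MeasureTheory Complex Finset Filter Topology SchwartzMap
open scoped FourierTransform RealInnerProductSpace ComplexConjugate

namespace Pool.Agent.CurveSpec

variable {ι : Type*} {L B : ℝ} {γ γ' : ℝ → ℂ} {Λ : ι → ℂ}

lemma fourier_ex (Ψ : 𝓢(ℂ, ℂ)) (l : ℂ) : (𝓕 Ψ) l = ∫ v : ℂ, Ψ v * ex (-⟪l, v⟫) := by
  rw [SchwartzMap.fourier_coe, Real.fourier_eq']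
  congr 1
  ext v
  rw [smul_eq_mul, mul_comm, real_inner_comm v l]
  congr 1
  unfold ex
  congr 2
  push_cast
  ring

/-- local vanishing of the Fourier transform of the frequency measure, normalised position -/
theorem local_vanish [Countable ι] (h : Fr L B γ Λ) (hc : Crv γ γ') {a b : ℝ} (h0 : 0 ≤ a)
    (hab : a < b) (hb : b ≤ L) (hfeet : (γ a).im = (γ b).im)
    (habove : ∀ t ∈ Set.Ioo a b, (γ a).im < (γ t).im) {x₀ : ℝ} (hx : 0 < x₀)
    (hx2 : x₀ < (γ b).re - (γ a).re) :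
    ∃ ζ : ℝ, 0 < ζ ∧ ∀ Ψ : 𝓢(ℂ, ℂ), (∀ v, Ψ v ≠ 0 → |v.re - x₀| < ζ ∧ |v.im| < ζ) →
      HasSum (fun i => (𝓕 Ψ) (Λ i)) 0 := by
  obtain ⟨ζ, hζ, hst⟩ := local_stokes hc hab hfeet habove hx hx2
  refine ⟨ζ, hζ, fun Ψ hΨ => ?_⟩
  set q : ℝ → ℂ := fun t => (((γ' t).im : ℝ) : ℂ) with hq
  set x' : ℝ → ℂ := fun t => (((γ' t).re : ℝ) : ℂ) with hx'
  have hqB : BM q := ⟨Complex.measurable_ofReal.comp (Complex.measurable_im.comp hc.meas), 1,
    fun t => by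
      rw [hq, Complex.norm_real]; exact (Complex.abs_im_le_norm _).trans (hc.bdd t)⟩
  have hxB : BM x' := ⟨Complex.measurable_ofReal.comp (Complex.measurable_re.comp hc.meas), 1,
    fun t => by
      rw [hx', Complex.norm_real]; exact (Complex.abs_re_le_norm _).trans (hc.bdd t)⟩
  have t1 := trace_formula h h0 hab.le hb hqB hxB Ψ
  have t2 := trace_formula h h0 hab.le hb hxB hqB Ψ
  have t3 := (t1.sub t2).neg
  set μ := volume.restrict (Set.Ioc a b) with hμ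
  have hzero : -((B : ℂ) * (∫ t in a..b, q t * conj (x' t)) * Ψ 0 -
      B * (∫ t in a..b, x' t * conj (q t)) * Ψ 0) = 0 := by
    have : (fun t => q t * conj (x' t)) = fun t => x' t * conj (q t) := by
      ext t
      rw [hq, hx']
      simp only [Complex.conj_ofReal]
      ring
    rw [this]; ring
  rw [hzero] at t3
  have hterm : ∀ i, -((∫ p : ℝ × ℝ, q p.1 * conj (x' p.2) * Ψ (γ p.1 - γ p.2) *
        ex (-⟪Λ i, γ p.1 - γ p.2⟫) ∂(μ.prod μ)) -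
      ∫ p : ℝ × ℝ, x' p.1 * conj (q p.2) * Ψ (γ p.1 - γ p.2) *
        ex (-⟪Λ i, γ p.1 - γ p.2⟫) ∂(μ.prod μ)) = (𝓕 Ψ) (Λ i) := by
    intro i
    have hΨc : ContDiff ℝ 1 (fun v : ℂ => Ψ v * ex (-⟪Λ i, v⟫)) := by
      have h1 : ContDiff ℝ 1 (fun v : ℂ => Ψ v) := (Ψ.smooth ⊤).of_le (by norm_num)
      have h2 : ContDiff ℝ 1 (fun v : ℂ => ex (-⟪Λ i, v⟫)) := by
        unfold ex
        have h3 : ContDiff ℝ 1 (fun v : ℂ => (((2 * Real.pi * (-⟪Λ i, v⟫) : ℝ) : ℂ) * I)) := by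
          apply ContDiff.mul _ contDiff_const
          apply Complex.ofRealCLM.contDiff.comp
          apply ContDiff.mul contDiff_const
          exact (contDiff_const.inner ℝ contDiff_id).neg
        exact h3.cexp
      exact h1.mul h2
    have hs := hst (fun v : ℂ => Ψ v * ex (-⟪Λ i, v⟫)) hΨc (fun v hv =>
      hΨ v (left_ne_zero_of_mul hv))
    rw [← fourier_ex] at hs
    have hmeas : Measurable fun p : ℝ × ℝ => Ψ (γ p.1 - γ p.2) * ex (-⟪Λ i, γ p.1 - γ p.2⟫) := by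
      have := hc.cont
      have h2 := Ψ.continuous
      exact (by fun_prop : Continuous fun p : ℝ × ℝ => Ψ (γ p.1 - γ p.2) *
        ex (-⟪Λ i, γ p.1 - γ p.2⟫)).measurable
    obtain ⟨C, hC⟩ : ∃ C, ∀ v, ‖Ψ v‖ ≤ C := by
      obtain ⟨C, hC⟩ := Ψ.decay 0 0
      exact ⟨C, fun v => by simpa using hC.2 v⟩
    have hint : ∀ f g : ℝ → ℂ, BM f → BM g → (∀ t, ‖f t‖ ≤ 1) → (∀ t, ‖g t‖ ≤ 1) →
        Integrable (fun p : ℝ × ℝ => f p.1 * conj (g p.2) * Ψ (γ p.1 - γ p.2) *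
        ex (-⟪Λ i, γ p.1 - γ p.2⟫)) (μ.prod μ) := by
      intro f g hf hg hf1 hg1
      apply Integrable.of_bound (C := C)
      · have m1 : Measurable fun p : ℝ × ℝ => f p.1 * conj (g p.2) :=
          (hf.meas.comp measurable_fst).mul (hg.star.meas.comp measurable_snd)
        have m2 := m1.mul hmeas
        have e1 : (fun p : ℝ × ℝ => f p.1 * conj (g p.2) * Ψ (γ p.1 - γ p.2) *
            ex (-⟪Λ i, γ p.1 - γ p.2⟫)) = fun p : ℝ × ℝ => f p.1 * conj (g p.2) *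
              (Ψ (γ p.1 - γ p.2) * ex (-⟪Λ i, γ p.1 - γ p.2⟫)) := by
          ext p; ring
        rw [e1]
        exact m2.aestronglyMeasurable
      · refine Eventually.of_forall fun p => ?_
        rw [norm_mul, norm_mul, norm_mul, norm_ex, mul_one, Complex.norm_conj]
        have h1 := hf1 p.1
        have h2 := hg1 p.2
        have h3 := hC (γ p.1 - γ p.2)
        have h4 : ‖f p.1‖ * ‖g p.2‖ ≤ 1 := by
          nlinarith [norm_nonneg (f p.1), norm_nonneg (g p.2)]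
        calc ‖f p.1‖ * ‖g p.2‖ * ‖Ψ (γ p.1 - γ p.2)‖ ≤ 1 * ‖Ψ (γ p.1 - γ p.2)‖ := by gcongr
          _ ≤ C := by rw [one_mul]; exact h3
    have hq1 : ∀ t, ‖q t‖ ≤ 1 := fun t => by
      rw [hq, Complex.norm_real]; exact (Complex.abs_im_le_norm _).trans (hc.bdd t)
    have hx1 : ∀ t, ‖x' t‖ ≤ 1 := fun t => by
      rw [hx', Complex.norm_real]; exact (Complex.abs_re_le_norm _).trans (hc.bdd t)
    rw [← integral_sub (hint q x' hqB hxB hq1 hx1) (hint x' q hxB hqB hx1 hq1)]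
    have e2 : (fun p : ℝ × ℝ => q p.1 * conj (x' p.2) * Ψ (γ p.1 - γ p.2) *
        ex (-⟪Λ i, γ p.1 - γ p.2⟫) - x' p.1 * conj (q p.2) * Ψ (γ p.1 - γ p.2) *
        ex (-⟪Λ i, γ p.1 - γ p.2⟫)) = fun p : ℝ × ℝ => (Ψ (γ p.1 - γ p.2) *
        ex (-⟪Λ i, γ p.1 - γ p.2⟫)) *
        (((γ' p.2).re * (γ' p.1).im - (γ' p.2).im * (γ' p.1).re : ℝ) : ℂ) := by
      ext p
      rw [hq, hx']
      simp only [Complex.conj_ofReal]
      push_cast
      ring
    rw [e2, hs, neg_neg]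
  simpa only [hterm] using t3

/-- The Fourier transform of the frequency measure vanishes near `v₀`. -/
def Good (Λ : ι → ℂ) (v₀ : ℂ) : Prop :=
  ∃ ζ : ℝ, 0 < ζ ∧ ∀ Ψ : 𝓢(ℂ, ℂ), (∀ v, Ψ v ≠ 0 → ‖v - v₀‖ < ζ) →
    HasSum (fun i => (𝓕 Ψ) (Λ i)) 0

lemma Fr.isometry (h : Fr L B γ Λ) (A : ℂ ≃ₗᵢ[ℝ] ℂ) :
    Fr L B (fun t => A (γ t)) (fun i => A (Λ i)) := by
  refine ⟨h.Lpos, h.Bpos, A.continuous.comp h.cont, fun f hf => ?_⟩
  have h1 := h.frame f hf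
  have h2 : ∀ i, co L (fun t => A (γ t)) (A (Λ i)) f = co L γ (Λ i) f := by
    intro i
    unfold co
    simp only [LinearIsometryEquiv.inner_map_map]
  simpa only [h2] using h1

lemma Crv.isometry (hc : Crv γ γ') (A : ℂ ≃ₗᵢ[ℝ] ℂ) :
    Crv (fun t => A (γ t)) (fun t => A (γ' t)) := by
  refine ⟨A.continuous.comp hc.cont, A.continuous.measurable.comp hc.meas, fun t => ?_, ?_⟩
  · rw [LinearIsometryEquiv.norm_map]; exact hc.bdd t
  · obtain ⟨N, hN, hd⟩ := hc.der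
    refine ⟨N, hN, fun t ht => ?_⟩
    have h1 : HasFDerivAt (fun v : ℂ => A v)
        (A.toContinuousLinearEquiv : ℂ →L[ℝ] ℂ) (γ t) :=
      A.toContinuousLinearEquiv.hasFDerivAt
    exact HasFDerivAt.comp_hasDerivAt_of_eq t h1 (hd t ht) rfl

/-- points of the segment between the feet of an excursion are good -/
theorem good_of_excursion [Countable ι] (h : Fr L B γ Λ) (hc : Crv γ γ') (A : ℂ ≃ₗᵢ[ℝ] ℂ)
    {a b : ℝ} (h0 : 0 ≤ a) (hab : a < b) (hb : b ≤ L) (hfeet : (A (γ a)).im = (A (γ b)).im)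
    (habove : ∀ t ∈ Set.Ioo a b, (A (γ a)).im < (A (γ t)).im) {x₀ : ℝ} (hx : 0 < x₀)
    (hx2 : x₀ < (A (γ b)).re - (A (γ a)).re) : Good Λ (A.symm x₀) := by
  obtain ⟨ζ, hζ, hv⟩ := local_vanish (h.isometry A) (hc.isometry A) h0 hab hb hfeet habove hx hx2
  refine ⟨ζ, hζ, fun Ψ hΨ => ?_⟩
  set Φ : 𝓢(ℂ, ℂ) := SchwartzMap.compCLMOfContinuousLinearEquiv ℂ
    A.symm.toContinuousLinearEquiv Ψ with hΦ
  have hΦv : ∀ v, Φ v = Ψ (A.symm v) := fun v => rfl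
  have h1 := hv Φ (fun v hvne => ?_)
  · have h2 : ∀ i, (𝓕 Φ) (A (Λ i)) = (𝓕 Ψ) (Λ i) := by
      intro i
      rw [SchwartzMap.fourier_coe, SchwartzMap.fourier_coe]
      have h3 := Real.fourier_comp_linearIsometry A.symm (fun v => Ψ v) (A (Λ i))
      rw [A.symm_apply_apply] at h3
      exact h3
    simpa only [h2] using h1
  · have h2 := hΨ (A.symm v) hvne
    have h3 : ‖v - x₀‖ < ζ := by
      rw [← A.symm.norm_map, map_sub]; exact h2
    have h4 : (v - (x₀ : ℂ)).re = v.re - x₀ := by simp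
    have h5 : (v - (x₀ : ℂ)).im = v.im := by simp
    constructor
    · rw [← h4]; exact (Complex.abs_re_le_norm _).trans_lt h3
    · rw [← h5]; exact (Complex.abs_im_le_norm _).trans_lt h3

end Pool.Agent.CurveSpec
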